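import Mathlib

set_option autoImplicit false

/-! A kernel-friendly checker for case trees over two-colourings of the edges of the complete graph
on `0, …, 8`. A clause is a natural number: bit `16 x + y` stands for `the edge x y has the first
colour`, and bit `256 + 16 x + y` for `the edge x y has the second colour`. -/

namespace Pool.Agent.E8helper36.K9

/-- Evaluate the argument first (for the kernel). -/
def force {α : Type} (n : Nat) (k : Nat → α) : α :=
  Nat.rec (motive := fun _ => α) (k 0) (fun m _ => k (Nat.succ m)) n

theorem force_eq {α : Type} (n : Nat) (k : Nat → α) : force n k = k n := by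
  cases n <;> rfl

/-- The bit of the literal `x - y` (colour offset `o`, either `0` or `256`). -/
def bitOf (x y o : Nat) : Nat := Nat.add (Nat.add (Nat.mul 16 x) y) o

/-- A digit of `t`. -/
def dig (t s : Nat) : Nat := Nat.land (Nat.shiftRight t s) 15

/-- The mask of a coloured edge list `(4 a, 4 b, o)` relabelled by the digits of `t`. -/
def maskOf (t sw : Nat) (L : List (Nat × Nat × Nat)) : Nat :=
  List.rec (motive := fun _ => Nat) 0
    (fun e _ ih => force (Nat.lor (Nat.shiftLeft 1 (bitOf (Nat.land (Nat.shiftRight t e.1) 15)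
      (Nat.land (Nat.shiftRight t e.2.1) 15) (Nat.xor e.2.2 sw))) ih) (fun x => x)) L

/-- The mask of the nine digits of `t`. -/
def digSum (t : Nat) (k : Nat) : Nat :=
  Nat.rec (motive := fun _ => Nat) 0
    (fun k ih => Nat.lor (Nat.shiftLeft 1 (Nat.land (Nat.shiftRight t (Nat.mul 4 k)) 15)) ih) k

/-- an invalid clause -/
def INV : Nat := Nat.shiftLeft 1 600

/-- the clause of a leaf -/
def leafMask (tab : Nat → List (Nat × Nat × Nat)) (s : Nat) : Nat :=
  cond (Nat.beq (digSum (Nat.shiftRight s 8) 9) 511)
    (maskOf (Nat.shiftRight s 8) (Nat.shiftLeft (Nat.land (Nat.shiftRight s 6) 1) 8)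
      (tab (Nat.land s 63)))
    INV

/-- clear the bits of `m` in `x` -/
def clr (x m : Nat) : Nat := Nat.xor (Nat.lor x m) m

/-- the mask of the edge `u v` in the first colour -/
def em (u v : Nat) : Nat := Nat.lor (Nat.shiftLeft 1 (Nat.add (Nat.mul 16 u) v))
  (Nat.shiftLeft 1 (Nat.add (Nat.mul 16 v) u))

/-- resolve the clauses `l` (edge `u v` in the first colour) and `r` (second colour) -/
def comb (u v l r : Nat) : Nat :=
  force (em u v) fun m => Nat.lor (clr l m) (clr r (Nat.shiftLeft m 256))

/-- run the stack machine -/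
def run (tab : Nat → List (Nat × Nat × Nat)) (f : Nat) : Nat → List Nat → List Nat :=
  Nat.rec (motive := fun _ => Nat → List Nat → List Nat) (fun _ _ => [INV])
    (fun _ ih s st => force s fun s =>
      cond (Nat.beq s 0) st
        (cond (Nat.beq (Nat.land s 63) 0)
          (List.rec (motive := fun _ => List Nat) [INV]
            (fun r st1 _ => List.rec (motive := fun _ => List Nat) [INV]
              (fun l st2 _ => force (comb (Nat.land (Nat.shiftRight s 8) 15)
                (Nat.land (Nat.shiftRight s 12) 15) l r) fun c =>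
                  ih (Nat.shiftRight s 16) (c :: st2)) st1) st)
          (force (leafMask tab s) fun c => ih (Nat.shiftRight s 44) (c :: st)))) f

/-- the final clause is contained in the given mask -/
def okEnd (m : Nat) (l : List Nat) : Bool :=
  List.rec (motive := fun _ => Bool) false
    (fun c t _ => List.rec (motive := fun _ => Bool) (Nat.beq (Nat.lor c m) m)
      (fun _ _ _ => false) t) l

/-- equality of lists of numbers -/
def eqL (l : List Nat) : List Nat → Bool :=
  List.rec (motive := fun _ => List Nat → Bool)
    (fun l' => List.rec (motive := fun _ => Bool) true (fun _ _ _ => false) l')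
    (fun a _ ih l' => List.rec (motive := fun _ => Bool) false
      (fun b t _ => cond (Nat.beq a b) (ih t) false) l') l

theorem eqL_sound : ∀ l l' : List Nat, eqL l l' = true → l = l' := by
  intro l
  induction l with
  | nil =>
    intro l' h
    cases l' with
    | nil => rfl
    | cons b t => exact absurd h (by simp [eqL])
  | cons a s ih =>
    intro l' h
    cases l' with
    | nil => exact absurd h (by simp [eqL])
    | cons b t =>
      have h' : cond (Nat.beq a b) (eqL s t) false = true := h
      cases hab : Nat.beq a b with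
      | false => rw [hab] at h'; exact absurd h' (by simp)
      | true =>
        rw [hab] at h'
        rw [Nat.eq_of_beq_eq_true hab, ih t h']

/-- table lookup, the default being an invalid pattern -/
def tabOf (L : List (List (Nat × Nat × Nat))) (k : Nat) : List (Nat × Nat × Nat) :=
  List.rec (motive := fun _ => Nat → List (Nat × Nat × Nat)) (fun _ => [(0, 0, 1024)])
    (fun hd _ ih k => Nat.rec (motive := fun _ => List (Nat × Nat × Nat)) hd
      (fun k' _ => ih k') k) L k

/-! ### Semantics -/

/-- the colouring `c` satisfies all the literals of the clause `C` -/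
def Sat (c : ℕ → ℕ → Bool) (C : ℕ) : Prop :=
  ∀ x < 9, ∀ y < 9, (C.testBit (16 * x + y) = true → c x y = true) ∧
    (C.testBit (16 * x + y + 256) = true → c x y = false)

/-- the clause has a forbidden bit -/
def Dead (C : ℕ) : Prop := ∃ i, 512 ≤ i ∧ C.testBit i = true

/-- what the machine guarantees for its clauses -/
def Valid (c : ℕ → ℕ → Bool) (C : ℕ) : Prop := Dead C ∨ ¬ Sat c C

/-- a relabelling of the vertices `0, …, 8` (the vertex `a` being encoded as `4 a`) -/
def IsPerm (ρ : ℕ → ℕ) : Prop :=
  (∀ a < 9, ρ (4 * a) < 9) ∧ ∀ a < 9, ∀ b < 9, ρ (4 * a) = ρ (4 * b) → a = b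

/-- the coloured pattern `L` does not occur in `c`, not even with the colours swapped -/
def Ex (c : ℕ → ℕ → Bool) (L : List (ℕ × ℕ × ℕ)) : Prop :=
  ∀ ρ : ℕ → ℕ, IsPerm ρ → ∀ s : Bool,
    ¬ ∀ e ∈ L, c (ρ e.1) (ρ e.2.1) = (decide (e.2.2 = 0) ^^ s)

/-- well-formed patterns -/
def WF (L : List (ℕ × ℕ × ℕ)) : Prop :=
  ∀ e ∈ L, (∃ a < 9, e.1 = 4 * a) ∧ (∃ b < 9, e.2.1 = 4 * b) ∧ (e.2.2 = 0 ∨ e.2.2 = 256)

/-- a pattern with an impossible edge -/
def Bad (L : List (ℕ × ℕ × ℕ)) : Prop := ∃ e ∈ L, e.2.2 = 1024

/-- the patterns of the table are excluded by `c` -/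
def TabOK (c : ℕ → ℕ → Bool) (tab : ℕ → List (ℕ × ℕ × ℕ)) : Prop :=
  ∀ k, Bad (tab k) ∨ (WF (tab k) ∧ Ex c (tab k))

theorem maskOf_cons (t sw : ℕ) (e : ℕ × ℕ × ℕ) (L : List (ℕ × ℕ × ℕ)) :
    maskOf t sw (e :: L) = (1 <<< (16 * dig t e.1 + dig t e.2.1 + (e.2.2 ^^^ sw))) ||| maskOf t sw L := by
  have : maskOf t sw (e :: L) = force (Nat.lor (Nat.shiftLeft 1 (bitOf (Nat.land (Nat.shiftRight t e.1) 15)
      (Nat.land (Nat.shiftRight t e.2.1) 15) (Nat.xor e.2.2 sw))) (maskOf t sw L)) (fun x => x) := rfl
  rw [this, force_eq]
  rfl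

theorem testBit_maskOf (t sw : ℕ) (L : List (ℕ × ℕ × ℕ)) (e : ℕ × ℕ × ℕ) (he : e ∈ L) :
    (maskOf t sw L).testBit (16 * dig t e.1 + dig t e.2.1 + (e.2.2 ^^^ sw)) = true := by
  induction L with
  | nil => cases he
  | cons a L ih =>
    rw [maskOf_cons, Nat.testBit_lor]
    rcases List.mem_cons.mp he with rfl | h
    · simp [Nat.one_shiftLeft, Nat.testBit_two_pow_self]
    · rw [ih h, Bool.or_true]

theorem digSum_succ (t k : ℕ) : digSum t (k + 1) = 2 ^ (dig t (4 * k)) ||| digSum t k := by
  have : digSum t (k + 1) = Nat.lor (Nat.shiftLeft 1 (Nat.land (Nat.shiftRight t (Nat.mul 4 k)) 15))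
    (digSum t k) := rfl
  rw [this]
  show 1 <<< (dig t (4 * k)) ||| digSum t k = _
  rw [Nat.one_shiftLeft]

theorem dig_lt (t s : ℕ) : dig t s < 16 := by
  have : dig t s = (t >>> s) &&& 15 := rfl
  rw [this]
  exact lt_of_le_of_lt Nat.and_le_right (by norm_num)

theorem testBit_digSum (t k i : ℕ) :
    (digSum t k).testBit i = true ↔ ∃ j < k, dig t (4 * j) = i := by
  induction k with
  | zero =>
    have : digSum t 0 = 0 := rfl
    simp [this]
  | succ k ih =>
    rw [digSum_succ, Nat.testBit_lor, Bool.or_eq_true, ih, Nat.testBit_two_pow, decide_eq_true_eq]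
    constructor
    · rintro (h | ⟨j, hj, h⟩)
      · exact ⟨k, by omega, h⟩
      · exact ⟨j, by omega, h⟩
    · rintro ⟨j, hj, h⟩
      rcases Nat.lt_succ_iff_lt_or_eq.mp hj with hj | rfl
      · exact Or.inr ⟨j, hj, h⟩
      · exact Or.inl h

theorem isPerm_of_digSum (t : ℕ) (h : digSum t 9 = 511) : IsPerm (dig t) := by
  have h511 : ∀ i, (511 : ℕ).testBit i = true ↔ i < 9 := by
    intro i
    have e : (511 : ℕ) = 2 ^ 9 - 1 := by norm_num
    rw [e, Nat.testBit_two_pow_sub_one, decide_eq_true_eq]
  have hlt : ∀ a < 9, dig t (4 * a) < 9 := by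
    intro a ha
    rw [← h511, ← h, testBit_digSum]
    exact ⟨a, ha, rfl⟩
  refine ⟨hlt, ?_⟩
  let g : Fin 9 → Fin 9 := fun a => ⟨dig t (4 * a.val), hlt a.val a.2⟩
  have hs : Function.Surjective g := by
    intro b
    have := (h511 b.val).mpr b.2
    rw [← h, testBit_digSum] at this
    obtain ⟨j, hj, hjb⟩ := this
    exact ⟨⟨j, hj⟩, Fin.ext hjb⟩
  have hi := Finite.injective_iff_surjective.mpr hs
  intro a ha b hb hab
  have := hi (a₁ := ⟨a, ha⟩) (a₂ := ⟨b, hb⟩) (Fin.ext hab)
  exact congrArg Fin.val this

theorem dead_shift (n : ℕ) (hn : 512 ≤ n) : Dead (Nat.shiftLeft 1 n) := by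
  refine ⟨n, hn, ?_⟩
  show (1 <<< n).testBit n = true
  rw [Nat.one_shiftLeft, Nat.testBit_two_pow_self]

theorem dead_INV : Dead INV := dead_shift 600 (by norm_num)

theorem valid_leaf (c : ℕ → ℕ → Bool) (tab : ℕ → List (ℕ × ℕ × ℕ)) (h : TabOK c tab) (s : ℕ) :
    Valid c (leafMask tab s) := by
  unfold leafMask
  cases hb : Nat.beq (digSum (Nat.shiftRight s 8) 9) 511 with
  | false =>
    rw [cond_false]
    exact Or.inl dead_INV
  | true =>
    have hp := isPerm_of_digSum _ (Nat.eq_of_beq_eq_true hb)
    show Valid c (maskOf _ _ _)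
    generalize hk : Nat.land s 63 = k
    generalize ht : Nat.shiftRight s 8 = t at *
    have hsw : Nat.shiftLeft (Nat.land (Nat.shiftRight s 6) 1) 8 = 0 ∨
        Nat.shiftLeft (Nat.land (Nat.shiftRight s 6) 1) 8 = 256 := by
      have h1 : Nat.land (Nat.shiftRight s 6) 1 ≤ 1 := Nat.and_le_right
      generalize Nat.land (Nat.shiftRight s 6) 1 = q at *
      interval_cases q
      · left; rfl
      · right; rfl
    generalize hsw' : Nat.shiftLeft (Nat.land (Nat.shiftRight s 6) 1) 8 = sw at *
    rcases h k with ⟨e, he, he'⟩ | ⟨hwf, hex⟩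
    · left
      refine ⟨_, ?_, testBit_maskOf t sw _ e he⟩
      rw [he']
      have e1 : (1024 ^^^ 0 : ℕ) = 1024 := by decide
      have e2 : (1024 ^^^ 256 : ℕ) = 1280 := by decide
      rcases hsw with rfl | rfl
      · rw [e1]; omega
      · rw [e2]; omega
    · right
      intro hsat
      refine hex (dig t) hp (decide (sw = 256)) ?_
      intro e he
      obtain ⟨⟨a, ha, hea⟩, ⟨b, hb', heb⟩, ho⟩ := hwf e he
      have hbit := testBit_maskOf t sw _ e he
      have hx : dig t e.1 < 9 := by rw [hea]; exact hp.1 a ha
      have hy : dig t e.2.1 < 9 := by rw [heb]; exact hp.1 b hb'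
      obtain ⟨s1, s2⟩ := hsat _ hx _ hy
      rcases hsw with rfl | rfl
      · rcases ho with ho | ho
        · rw [ho] at hbit ⊢
          simpa using s1 (by simpa using hbit)
        · rw [ho] at hbit ⊢
          simpa using s2 (by simpa using hbit)
      · rcases ho with ho | ho
        · rw [ho] at hbit ⊢
          simpa using s2 (by simpa using hbit)
        · rw [ho] at hbit ⊢
          simpa using s1 (by simpa using hbit)

theorem testBit_clr (x m i : ℕ) : (clr x m).testBit i = (x.testBit i && !m.testBit i) := by
  show ((x ||| m) ^^^ m).testBit i = _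
  rw [Nat.testBit_xor, Nat.testBit_lor]
  cases x.testBit i <;> cases m.testBit i <;> rfl

theorem testBit_em (u v i : ℕ) : (em u v).testBit i = (decide (i = 16 * u + v) || decide (i = 16 * v + u)) := by
  show ((1 <<< (16 * u + v)) ||| (1 <<< (16 * v + u))).testBit i = _
  rw [Nat.testBit_lor, Nat.one_shiftLeft, Nat.one_shiftLeft, Nat.testBit_two_pow,
    Nat.testBit_two_pow]
  congr 1 <;> exact decide_eq_decide.mpr eq_comm

theorem valid_comb (c : ℕ → ℕ → Bool) (hc : ∀ x y, c x y = c y x) (u v l r : ℕ) (hu : u < 16)
    (hv : v < 16) (hl : Valid c l) (hr : Valid c r) : Valid c (comb u v l r) := by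
  have hcomb : comb u v l r = (clr l (em u v)) ||| (clr r ((em u v) <<< 256)) := by
    unfold comb
    rw [force_eq]
    rfl
  rw [hcomb]
  have hle : ∀ i, (em u v).testBit i = true → i < 256 := by
    intro i hi
    rw [testBit_em] at hi
    simp only [Bool.or_eq_true, decide_eq_true_eq] at hi
    omega
  rcases hl with ⟨i, hi, hli⟩ | hl
  · left
    refine ⟨i, hi, ?_⟩
    rw [Nat.testBit_lor, testBit_clr, hli]
    cases hem : (em u v).testBit i with
    | true => have := hle i hem; omega
    | false => simp
  rcases hr with ⟨i, hi, hri⟩ | hr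
  · left
    refine ⟨i, hi, ?_⟩
    rw [Nat.testBit_lor, testBit_clr r, hri, Nat.testBit_shiftLeft]
    cases hem : (em u v).testBit (i - 256) with
    | true => have := hle _ hem; omega
    | false => simp
  right
  intro hs
  cases hcuv : c u v with
  | true =>
    apply hl
    intro x hx y hy
    obtain ⟨s1, s2⟩ := hs x hx y hy
    constructor
    · intro h
      cases hem : (em u v).testBit (16 * x + y) with
      | true =>
        rw [testBit_em] at hem
        simp only [Bool.or_eq_true, decide_eq_true_eq] at hem
        rcases hem with hem | hem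
        · have e1 : x = u := by omega
          have e2 : y = v := by omega
          rw [e1, e2]; exact hcuv
        · have e1 : x = v := by omega
          have e2 : y = u := by omega
          rw [e1, e2, hc]; exact hcuv
      | false =>
        apply s1
        rw [Nat.testBit_lor, testBit_clr, h, hem]
        rfl
    · intro h
      apply s2
      rw [Nat.testBit_lor, testBit_clr, h]
      cases hem : (em u v).testBit (16 * x + y + 256) with
      | true => have := hle _ hem; omega
      | false => rfl
  | false =>
    apply hr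
    intro x hx y hy
    obtain ⟨s1, s2⟩ := hs x hx y hy
    constructor
    · intro h
      apply s1
      rw [Nat.testBit_lor, testBit_clr r, h, Nat.testBit_shiftLeft]
      have : ¬ (16 * x + y ≥ 256) := by omega
      simp [this]
    · intro h
      cases hem : (em u v).testBit (16 * x + y) with
      | true =>
        rw [testBit_em] at hem
        simp only [Bool.or_eq_true, decide_eq_true_eq] at hem
        rcases hem with hem | hem
        · have e1 : x = u := by omega
          have e2 : y = v := by omega
          rw [e1, e2]; exact hcuv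
        · have e1 : x = v := by omega
          have e2 : y = u := by omega
          rw [e1, e2, hc]; exact hcuv
      | false =>
        apply s2
        rw [Nat.testBit_lor, testBit_clr r, h, Nat.testBit_shiftLeft]
        have e : 16 * x + y + 256 - 256 = 16 * x + y := by omega
        rw [e, hem]
        simp

theorem valid_run (c : ℕ → ℕ → Bool) (hc : ∀ x y, c x y = c y x) (tab : ℕ → List (ℕ × ℕ × ℕ))
    (h : TabOK c tab) (f : ℕ) : ∀ (s : ℕ) (st : List ℕ), (∀ C ∈ st, Valid c C) →
      ∀ C ∈ run tab f s st, Valid c C := by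
  have hinv : ∀ C ∈ [INV], Valid c C := by
    intro C hC
    rw [List.mem_singleton] at hC
    rw [hC]
    exact Or.inl dead_INV
  induction f with
  | zero =>
    intro s st _
    exact hinv
  | succ f ih =>
    intro s st hst
    have hrun : run tab (f + 1) s st = cond (Nat.beq s 0) st
        (cond (Nat.beq (Nat.land s 63) 0)
          (List.rec (motive := fun _ => List Nat) [INV]
            (fun r st1 _ => List.rec (motive := fun _ => List Nat) [INV]
              (fun l st2 _ => force (comb (Nat.land (Nat.shiftRight s 8) 15)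
                (Nat.land (Nat.shiftRight s 12) 15) l r) fun c =>
                  run tab f (Nat.shiftRight s 16) (c :: st2)) st1) st)
          (force (leafMask tab s) fun c => run tab f (Nat.shiftRight s 44) (c :: st))) := by
      have : run tab (f + 1) s st = force s (fun s => cond (Nat.beq s 0) st
        (cond (Nat.beq (Nat.land s 63) 0)
          (List.rec (motive := fun _ => List Nat) [INV]
            (fun r st1 _ => List.rec (motive := fun _ => List Nat) [INV]
              (fun l st2 _ => force (comb (Nat.land (Nat.shiftRight s 8) 15)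
                (Nat.land (Nat.shiftRight s 12) 15) l r) fun c =>
                  run tab f (Nat.shiftRight s 16) (c :: st2)) st1) st)
          (force (leafMask tab s) fun c => run tab f (Nat.shiftRight s 44) (c :: st)))) := rfl
      rw [this, force_eq]
    rw [hrun]
    cases Nat.beq s 0 with
    | true => exact hst
    | false =>
      cases Nat.beq (Nat.land s 63) 0 with
      | true =>
        cases st with
        | nil => exact hinv
        | cons r st1 =>
          cases st1 with
          | nil => exact hinv
          | cons l st2 =>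
            simp only [cond_true, cond_false, force_eq]
            apply ih
            intro C hC
            rcases List.mem_cons.mp hC with rfl | hC
            · refine valid_comb c hc _ _ _ _ ?_ ?_ (hst _ (by simp)) (hst _ (by simp))
              · exact lt_of_le_of_lt Nat.and_le_right (by norm_num)
              · exact lt_of_le_of_lt Nat.and_le_right (by norm_num)
            · exact hst _ (by simp [hC])
      | false =>
        simp only [cond_true, cond_false, force_eq]
        apply ih
        intro C hC
        rcases List.mem_cons.mp hC with rfl | hC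
        · exact valid_leaf c tab h s
        · exact hst _ hC

theorem valid_chunk (c : ℕ → ℕ → Bool) (hc : ∀ x y, c x y = c y x) (tab : ℕ → List (ℕ × ℕ × ℕ))
    (h : TabOK c tab) (f s : ℕ) (st st' : List ℕ) (hst : ∀ C ∈ st, Valid c C)
    (hrun : eqL (run tab f s st) st' = true) : ∀ C ∈ st', Valid c C := by
  rw [← eqL_sound _ _ hrun]
  exact valid_run c hc tab h f s st hst

/-- the mask of a pattern, both orientations of each edge -/
def fullMask (L : List (ℕ × ℕ × ℕ)) : ℕ :=
  L.foldr (fun e m => (1 <<< (4 * e.1 + e.2.1 / 4 + e.2.2)) ||| ((1 <<< (4 * e.2.1 + e.1 / 4 + e.2.2)) ||| m)) 0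

end Pool.Agent.E8helper36.K9
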