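import Mathlib

set_option autoImplicit false

/-! A biplanar drawing of `K₉` with a single crossing. -/

namespace Pool.Agent.E8helper36.K9.Draw

open Set

/-- abscissae of the vertices in the two planes -/
def X : Fin 2 → Fin 9 → ℤ := ![![12, 7, 5, 7, 8, 10, 9, 5, 0], ![8, 7, 6, 3, 0, 4, 5, 9, 4]]

/-- ordinates of the vertices in the two planes -/
def Y : Fin 2 → Fin 9 → ℤ := ![![11, 3, 5, 6, 9, 1, 9, 7, 6], ![3, 9, 5, 9, 7, 0, 8, 0, 6]]

/-- the edges of the first plane -/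
def E0 : List (Fin 9 × Fin 9) := [(0,3), (0,4), (0,5), (0,6), (0,7), (0,8), (1,2), (1,5), (1,8),
  (2,3), (2,5), (2,8), (3,5), (3,6), (3,7), (3,8), (4,7), (4,8), (5,8), (6,7), (7,8)]

/-- the colour of an edge -/
def col (u v : Fin 9) : Fin 2 := if E0.contains (u, v) || E0.contains (v, u) then 0 else 1

/-- the position of a vertex -/
noncomputable def pos (i : Fin 2) (u : Fin 9) : ℂ := ((X i u : ℝ) : ℂ) + ((Y i u : ℝ) : ℂ) * Complex.I

/-- the straight arc from `u` to `v` -/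
noncomputable def arc (i : Fin 2) (u v : Fin 9) (t : ℝ) : ℂ :=
  (((1 - t) * X i u + t * X i v : ℝ) : ℂ) + (((1 - t) * Y i u + t * Y i v : ℝ) : ℂ) * Complex.I

/-- twice the oriented area of the triangle `a b c` -/
def o (i : Fin 2) (a b c : Fin 9) : ℤ :=
  (X i b - X i a) * (Y i c - Y i a) - (Y i b - Y i a) * (X i c - X i a)

/-- the line `a b` separates weakly from `c d` -/
def sepd (i : Fin 2) (a b c d : Fin 9) : Bool :=
  (decide (0 ≤ o i a b c) && decide (0 ≤ o i a b d) && decide (0 < o i a b c + o i a b d)) ||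
  (decide (o i a b c ≤ 0) && decide (o i a b d ≤ 0) && decide (o i a b c + o i a b d < 0))

theorem col_symm (u v : Fin 9) : col u v = col v u := by
  unfold col
  rw [Bool.or_comm]

theorem pos_re (i : Fin 2) (u : Fin 9) : (pos i u).re = X i u := by simp [pos]
theorem pos_im (i : Fin 2) (u : Fin 9) : (pos i u).im = Y i u := by simp [pos]
theorem arc_re (i : Fin 2) (u v : Fin 9) (t : ℝ) : (arc i u v t).re = (1 - t) * X i u + t * X i v := by
  simp [arc]
theorem arc_im (i : Fin 2) (u v : Fin 9) (t : ℝ) : (arc i u v t).im = (1 - t) * Y i u + t * Y i v := by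
  simp [arc]

theorem general : ∀ (i : Fin 2) (u v w : Fin 9), u ≠ v → w ≠ u → w ≠ v → o i u v w ≠ 0 := by
  decide +kernel

theorem distinct : ∀ (i : Fin 2) (u v : Fin 9), u ≠ v → X i u ≠ X i v ∨ Y i u ≠ Y i v := by
  decide +kernel

/-- the four-tuples of the unique crossing -/
def T8 : List (Fin 9 × Fin 9 × Fin 9 × Fin 9) := [(2,4,5,6), (4,2,5,6), (2,4,6,5), (4,2,6,5),
  (5,6,2,4), (5,6,4,2), (6,5,2,4), (6,5,4,2)]

/-- the check of a pair of edges -/
def okPair (i : Fin 2) (u v u' v' : Fin 9) : Bool :=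
  decide (u = v) || decide (u' = v') || decide (col u v ≠ i) || decide (col u' v' ≠ i) ||
  (decide (u = u') && decide (v = v')) || (decide (u = v') && decide (v = u')) ||
  sepd i u v u' v' || sepd i u' v' u v || (decide (i = 1) && T8.contains (u, v, u', v'))

theorem all_ok : ∀ (i : Fin 2) (u v u' v' : Fin 9), okPair i u v u' v' = true := by
  decide +kernel

theorem sep_sound (i : Fin 2) (a b c d : Fin 9) (h : sepd i a b c d = true) (t s : ℝ) (hs0 : 0 < s)
    (hs1 : s < 1) : arc i a b t ≠ arc i c d s := by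
  intro he
  have h1 := congrArg Complex.re he
  have h2 := congrArg Complex.im he
  rw [arc_re, arc_re] at h1
  rw [arc_im, arc_im] at h2
  have key : (1 - s) * (o i a b c : ℝ) + s * (o i a b d : ℝ) = 0 := by
    unfold o
    push_cast
    linear_combination (-(X i b - X i a : ℝ)) * h2 + ((Y i b - Y i a : ℝ)) * h1
  unfold sepd at h
  simp only [Bool.or_eq_true, Bool.and_eq_true, decide_eq_true_eq] at h
  rcases h with ⟨⟨h3, h4⟩, h5⟩ | ⟨⟨h3, h4⟩, h5⟩
  · have h3' : (0 : ℝ) ≤ o i a b c := by exact_mod_cast h3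
    have h4' : (0 : ℝ) ≤ o i a b d := by exact_mod_cast h4
    have h5' : (0 : ℝ) < (o i a b c : ℝ) + o i a b d := by exact_mod_cast h5
    have h6 : 0 ≤ (1 - s) * (o i a b c : ℝ) := mul_nonneg (by linarith) h3'
    have h7 : 0 ≤ s * (o i a b d : ℝ) := mul_nonneg hs0.le h4'
    have h8 : (1 - s) * (o i a b c : ℝ) = 0 := by linarith
    have h9 : s * (o i a b d : ℝ) = 0 := by linarith
    rcases mul_eq_zero.mp h8 with h10 | h10
    · linarith
    rcases mul_eq_zero.mp h9 with h11 | h11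
    · linarith
    linarith
  · have h3' : (o i a b c : ℝ) ≤ 0 := by exact_mod_cast h3
    have h4' : (o i a b d : ℝ) ≤ 0 := by exact_mod_cast h4
    have h5' : (o i a b c : ℝ) + o i a b d < 0 := by exact_mod_cast h5
    have h6 : (1 - s) * (o i a b c : ℝ) ≤ 0 := mul_nonpos_of_nonneg_of_nonpos (by linarith) h3'
    have h7 : s * (o i a b d : ℝ) ≤ 0 := mul_nonpos_of_nonneg_of_nonpos hs0.le h4'
    have h8 : (1 - s) * (o i a b c : ℝ) = 0 := by linarith
    have h9 : s * (o i a b d : ℝ) = 0 := by linarith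
    rcases mul_eq_zero.mp h8 with h10 | h10
    · linarith
    rcases mul_eq_zero.mp h9 with h11 | h11
    · linarith
    linarith

/-- the position of the crossing -/
noncomputable def z0 : ℂ := ((117 / 25 : ℝ) : ℂ) + ((136 / 25 : ℝ) : ℂ) * Complex.I

theorem cross_unique (u v u' v' : Fin 9) (h : T8.contains (u, v, u', v') = true) (t s : ℝ)
    (he : arc 1 u v t = arc 1 u' v' s) : arc 1 u v t = z0 := by
  have h1 := congrArg Complex.re he
  have h2 := congrArg Complex.im he
  rw [arc_re, arc_re] at h1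
  rw [arc_im, arc_im] at h2
  have hr : (z0).re = 117 / 25 := by simp [z0]
  have hi : (z0).im = 136 / 25 := by simp [z0]
  have hx : ∀ w : Fin 9, X 1 w = ![8, 7, 6, 3, 0, 4, 5, 9, 4] w := fun w => rfl
  have hy : ∀ w : Fin 9, Y 1 w = ![3, 9, 5, 9, 7, 0, 8, 0, 6] w := fun w => rfl
  have x2 : X 1 2 = 6 := rfl
  have x4 : X 1 4 = 0 := rfl
  have x5 : X 1 5 = 4 := rfl
  have x6 : X 1 6 = 5 := rfl
  have y2 : Y 1 2 = 5 := rfl
  have y4 : Y 1 4 = 7 := rfl
  have y5 : Y 1 5 = 0 := rfl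
  have y6 : Y 1 6 = 8 := rfl
  simp only [T8, List.contains_iff_mem, List.mem_cons, Prod.mk.injEq, List.not_mem_nil, or_false] at h
  rcases h with ⟨rfl, rfl, rfl, rfl⟩ | ⟨rfl, rfl, rfl, rfl⟩ | ⟨rfl, rfl, rfl, rfl⟩ |
    ⟨rfl, rfl, rfl, rfl⟩ | ⟨rfl, rfl, rfl, rfl⟩ | ⟨rfl, rfl, rfl, rfl⟩ | ⟨rfl, rfl, rfl, rfl⟩ |
    ⟨rfl, rfl, rfl, rfl⟩ <;>
  · simp only [x2, x4, x5, x6, y2, y4, y5, y6] at h1 h2
    push_cast at h1 h2
    apply Complex.ext
    · rw [arc_re, hr]
      simp only [x2, x4, x5, x6]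
      push_cast
      linarith
    · rw [arc_im, hi]
      simp only [y2, y4, y5, y6]
      push_cast
      linarith

end Pool.Agent.E8helper36.K9.Draw
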