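import Pool.Agent.E8helper36.K9.Checker

set_option autoImplicit false

/-! Eliminating one pattern after the other. -/

namespace Pool.Agent.E8helper36.K9

theorem testBit_fullMask (L : List (ℕ × ℕ × ℕ)) (i : ℕ) (h : (fullMask L).testBit i = true) :
    ∃ e ∈ L, i = 4 * e.1 + e.2.1 / 4 + e.2.2 ∨ i = 4 * e.2.1 + e.1 / 4 + e.2.2 := by
  induction L with
  | nil => simp [fullMask] at h
  | cons a L ih =>
    have e : fullMask (a :: L) = (1 <<< (4 * a.1 + a.2.1 / 4 + a.2.2)) |||
      ((1 <<< (4 * a.2.1 + a.1 / 4 + a.2.2)) ||| fullMask L) := rfl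
    rw [e, Nat.testBit_lor, Nat.testBit_lor, Nat.one_shiftLeft, Nat.one_shiftLeft,
      Nat.testBit_two_pow, Nat.testBit_two_pow] at h
    simp only [Bool.or_eq_true, decide_eq_true_eq] at h
    rcases h with h | h | h
    · exact ⟨a, by simp, Or.inl h.symm⟩
    · exact ⟨a, by simp, Or.inr h.symm⟩
    · obtain ⟨e, he, h⟩ := ih h
      exact ⟨e, by simp [he], h⟩

theorem not_valid_of_match (c : ℕ → ℕ → Bool) (hc : ∀ x y, c x y = c y x)
    (τ : List (ℕ × ℕ × ℕ)) (hτ : WF τ) (C : ℕ)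
    (hC : Nat.beq (Nat.lor C (fullMask τ)) (fullMask τ) = true)
    (hm : ∀ e ∈ τ, c (e.1 / 4) (e.2.1 / 4) = decide (e.2.2 = 0)) : ¬ Valid c C := by
  have hsub : ∀ i, C.testBit i = true → (fullMask τ).testBit i = true := by
    intro i hi
    have h := Nat.eq_of_beq_eq_true hC
    have h' : C ||| fullMask τ = fullMask τ := h
    rw [← h', Nat.testBit_lor, hi, Bool.true_or]
  rintro (⟨i, hi, h⟩ | h)
  · obtain ⟨e, he, h⟩ := testBit_fullMask τ i (hsub i h)
    obtain ⟨⟨a, ha, hea⟩, ⟨b, hb, heb⟩, ho⟩ := hτ e he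
    rw [hea, heb] at h
    rcases ho with ho | ho <;> rw [ho] at h <;> omega
  · apply h
    intro x hx y hy
    constructor
    · intro h
      obtain ⟨e, he, h⟩ := testBit_fullMask τ _ (hsub _ h)
      obtain ⟨⟨a, ha, hea⟩, ⟨b, hb, heb⟩, ho⟩ := hτ e he
      have hme := hm e he
      rw [hea, heb] at h hme
      have e1 : 4 * a / 4 = a := by omega
      have e2 : 4 * b / 4 = b := by omega
      rw [e1, e2] at h hme
      rcases ho with ho | ho
      · rw [ho] at h hme
        rcases h with h | h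
        · have e3 : x = a := by omega
          have e4 : y = b := by omega
          rw [e3, e4, hme]; rfl
        · have e3 : x = b := by omega
          have e4 : y = a := by omega
          rw [e3, e4, hc, hme]; rfl
      · rw [ho] at h
        rcases h with h | h <;> omega
    · intro h
      obtain ⟨e, he, h⟩ := testBit_fullMask τ _ (hsub _ h)
      obtain ⟨⟨a, ha, hea⟩, ⟨b, hb, heb⟩, ho⟩ := hτ e he
      have hme := hm e he
      rw [hea, heb] at h hme
      have e1 : 4 * a / 4 = a := by omega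
      have e2 : 4 * b / 4 = b := by omega
      rw [e1, e2] at h hme
      rcases ho with ho | ho
      · rw [ho] at h
        rcases h with h | h <;> omega
      · rw [ho] at h hme
        rcases h with h | h
        · have e3 : x = a := by omega
          have e4 : y = b := by omega
          rw [e3, e4, hme]; rfl
        · have e3 : x = b := by omega
          have e4 : y = a := by omega
          rw [e3, e4, hc, hme]; rfl

/-- Relabelling a colouring. -/
theorem ex_relabel (c : ℕ → ℕ → Bool) (L : List (ℕ × ℕ × ℕ)) (hL : Ex c L) (ρ : ℕ → ℕ)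
    (hρ : IsPerm ρ) (s : Bool) :
    Ex (fun x y => c (ρ (4 * x)) (ρ (4 * y)) ^^ s) L := by
  intro ρ' hρ' s' hm
  refine hL (fun n => ρ (4 * ρ' n)) ⟨?_, ?_⟩ (s' ^^ s) ?_
  · intro a ha
    exact hρ.1 _ (hρ'.1 a ha)
  · intro a ha b hb hab
    exact hρ'.2 a ha b hb (hρ.2 _ (hρ'.1 a ha) _ (hρ'.1 b hb) hab)
  · intro e he
    have h := hm e he
    simp only at h ⊢
    have key : ∀ z w s s' : Bool, (z ^^ s) = (w ^^ s') → z = (w ^^ (s' ^^ s)) := by decide
    exact key _ _ _ _ h

theorem elim (c : ℕ → ℕ → Bool) (hc : ∀ x y, c x y = c y x) (Ts : List (List (ℕ × ℕ × ℕ)))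
    (hex : ∀ L ∈ Ts, Ex c L) (τ : List (ℕ × ℕ × ℕ)) (hτ : WF τ) (C : ℕ)
    (hC : Nat.beq (Nat.lor C (fullMask τ)) (fullMask τ) = true)
    (hv : ∀ c' : ℕ → ℕ → Bool, (∀ x y, c' x y = c' y x) → (∀ L ∈ Ts, Ex c' L) → Valid c' C) :
    Ex c τ := by
  intro ρ hρ s hm
  refine not_valid_of_match (fun x y => c (ρ (4 * x)) (ρ (4 * y)) ^^ s) ?_ τ hτ C hC ?_
    (hv _ ?_ (fun L hL => ex_relabel c L (hex L hL) ρ hρ s))
  · intro x y
    simp only [hc (ρ (4 * x))]
  · intro e he
    obtain ⟨⟨a, ha, hea⟩, ⟨b, hb, heb⟩, ho⟩ := hτ e he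
    have h := hm e he
    rw [hea, heb] at h ⊢
    have e1 : 4 * a / 4 = a := by omega
    have e2 : 4 * b / 4 = b := by omega
    rw [e1, e2]
    show (c (ρ (4 * a)) (ρ (4 * b)) ^^ s) = _
    rw [h]
    have key : ∀ w s : Bool, ((w ^^ s) ^^ s) = w := by decide
    exact key _ _
  · intro x y
    simp only [hc (ρ (4 * x))]

/-- boolean form of well-formedness -/
def wfb (L : List (ℕ × ℕ × ℕ)) : Bool :=
  L.all fun e => decide (e.1 % 4 = 0) && decide (e.1 < 36) && decide (e.2.1 % 4 = 0) &&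
    decide (e.2.1 < 36) && (decide (e.2.2 = 0) || decide (e.2.2 = 256))

theorem wf_of_wfb (L : List (ℕ × ℕ × ℕ)) (h : wfb L = true) : WF L := by
  intro e he
  have := List.all_eq_true.mp h e he
  simp only [Bool.and_eq_true, Bool.or_eq_true, decide_eq_true_eq] at this
  obtain ⟨⟨⟨⟨h1, h2⟩, h3⟩, h4⟩, h5⟩ := this
  exact ⟨⟨e.1 / 4, by omega, by omega⟩, ⟨e.2.1 / 4, by omega, by omega⟩, h5⟩

theorem tabOf_mem (T : List (List (ℕ × ℕ × ℕ))) (k : ℕ) :
    tabOf T k = [(0, 0, 1024)] ∨ tabOf T k ∈ T := by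
  induction T generalizing k with
  | nil => exact Or.inl rfl
  | cons a T ih =>
    cases k with
    | zero => exact Or.inr (by simp [tabOf])
    | succ k =>
      have e : tabOf (a :: T) (k + 1) = tabOf T k := rfl
      rw [e]
      rcases ih k with h | h
      · exact Or.inl h
      · exact Or.inr (by simp [h])

/-- The table with one leading invalid entry. -/
theorem tabOK_of (c : ℕ → ℕ → Bool) (T : List (List (ℕ × ℕ × ℕ)))
    (hwf : ∀ L ∈ T, wfb L = true) (hex : ∀ L ∈ T, Ex c L) :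
    TabOK c (tabOf ([(0, 0, 1024)] :: T)) := by
  intro k
  rcases tabOf_mem ([(0, 0, 1024)] :: T) k with h | h
  · left; rw [h]; exact ⟨(0, 0, 1024), by simp, rfl⟩
  · rcases List.mem_cons.mp h with h | h
    · left; rw [h]; exact ⟨(0, 0, 1024), by simp, rfl⟩
    · right; exact ⟨wf_of_wfb _ (hwf _ h), hex _ h⟩

end Pool.Agent.E8helper36.K9
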