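import Pool.Agent.E8helper36.K9.Tree1_0
import Pool.Agent.E8helper36.K9.Tree1_1
import Pool.Agent.E8helper36.K9.Tree1_2
import Pool.Agent.E8helper36.K9.Tree1_3

set_option autoImplicit false

namespace Pool.Agent.E8helper36.K9

theorem valid1 (c : ℕ → ℕ → Bool) (hc : ∀ x y, c x y = c y x) (hex : ∀ L ∈ tab1, Ex c L) :
    Valid c 0x100020004000800000000000000000000000000000000000000000000000f0016001900190016 := by
  have ht : TabOK c (tabOf ([(0, 0, 1024)] :: tab1)) :=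
    tabOK_of c tab1 (by decide +kernel) hex
  have h0 : ∀ C ∈ ([] : List ℕ), Valid c C := by simp
  have h1 := valid_chunk c hc _ ht _ _ _ _ h0 c1_0
  have h2 := valid_chunk c hc _ ht _ _ _ _ h1 c1_1
  have h3 := valid_chunk c hc _ ht _ _ _ _ h2 c1_2
  have h4 := valid_chunk c hc _ ht _ _ _ _ h3 c1_3
  have h5 := valid_chunk c hc _ ht _ _ _ _ h4 c1_4
  have h6 := valid_chunk c hc _ ht _ _ _ _ h5 c1_5
  have h7 := valid_chunk c hc _ ht _ _ _ _ h6 c1_6
  have h8 := valid_chunk c hc _ ht _ _ _ _ h7 c1_7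
  have h9 := valid_chunk c hc _ ht _ _ _ _ h8 c1_8
  have h10 := valid_chunk c hc _ ht _ _ _ _ h9 c1_9
  have h11 := valid_chunk c hc _ ht _ _ _ _ h10 c1_10
  have h12 := valid_chunk c hc _ ht _ _ _ _ h11 c1_11
  have h13 := valid_chunk c hc _ ht _ _ _ _ h12 c1_12
  have h14 := valid_chunk c hc _ ht _ _ _ _ h13 c1_13
  have h15 := valid_chunk c hc _ ht _ _ _ _ h14 c1_14
  have h16 := valid_chunk c hc _ ht _ _ _ _ h15 c1_15
  have h17 := valid_chunk c hc _ ht _ _ _ _ h16 c1_16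
  have h18 := valid_chunk c hc _ ht _ _ _ _ h17 c1_17
  have h19 := valid_chunk c hc _ ht _ _ _ _ h18 c1_18
  have h20 := valid_chunk c hc _ ht _ _ _ _ h19 c1_19
  have h21 := valid_chunk c hc _ ht _ _ _ _ h20 c1_20
  have h22 := valid_chunk c hc _ ht _ _ _ _ h21 c1_21
  have h23 := valid_chunk c hc _ ht _ _ _ _ h22 c1_22
  have h24 := valid_chunk c hc _ ht _ _ _ _ h23 c1_23
  have h25 := valid_chunk c hc _ ht _ _ _ _ h24 c1_24
  have h26 := valid_chunk c hc _ ht _ _ _ _ h25 c1_25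
  have h27 := valid_chunk c hc _ ht _ _ _ _ h26 c1_26
  have h28 := valid_chunk c hc _ ht _ _ _ _ h27 c1_27
  have h29 := valid_chunk c hc _ ht _ _ _ _ h28 c1_28
  have h30 := valid_chunk c hc _ ht _ _ _ _ h29 c1_29
  have h31 := valid_chunk c hc _ ht _ _ _ _ h30 c1_30
  have h32 := valid_chunk c hc _ ht _ _ _ _ h31 c1_31
  have h33 := valid_chunk c hc _ ht _ _ _ _ h32 c1_32
  have h34 := valid_chunk c hc _ ht _ _ _ _ h33 c1_33
  have h35 := valid_chunk c hc _ ht _ _ _ _ h34 c1_34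
  have h36 := valid_chunk c hc _ ht _ _ _ _ h35 c1_35
  have h37 := valid_chunk c hc _ ht _ _ _ _ h36 c1_36
  have h38 := valid_chunk c hc _ ht _ _ _ _ h37 c1_37
  have h39 := valid_chunk c hc _ ht _ _ _ _ h38 c1_38
  have h40 := valid_chunk c hc _ ht _ _ _ _ h39 c1_39
  have h41 := valid_chunk c hc _ ht _ _ _ _ h40 c1_40
  have h42 := valid_chunk c hc _ ht _ _ _ _ h41 c1_41
  have h43 := valid_chunk c hc _ ht _ _ _ _ h42 c1_42
  have h44 := valid_chunk c hc _ ht _ _ _ _ h43 c1_43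
  have h45 := valid_chunk c hc _ ht _ _ _ _ h44 c1_44
  have h46 := valid_chunk c hc _ ht _ _ _ _ h45 c1_45
  have h47 := valid_chunk c hc _ ht _ _ _ _ h46 c1_46
  have h48 := valid_chunk c hc _ ht _ _ _ _ h47 c1_47
  have h49 := valid_chunk c hc _ ht _ _ _ _ h48 c1_48
  have h50 := valid_chunk c hc _ ht _ _ _ _ h49 c1_49
  have h51 := valid_chunk c hc _ ht _ _ _ _ h50 c1_50
  have h52 := valid_chunk c hc _ ht _ _ _ _ h51 c1_51
  have h53 := valid_chunk c hc _ ht _ _ _ _ h52 c1_52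
  have h54 := valid_chunk c hc _ ht _ _ _ _ h53 c1_53
  have h55 := valid_chunk c hc _ ht _ _ _ _ h54 c1_54
  have h56 := valid_chunk c hc _ ht _ _ _ _ h55 c1_55
  have h57 := valid_chunk c hc _ ht _ _ _ _ h56 c1_56
  have h58 := valid_chunk c hc _ ht _ _ _ _ h57 c1_57
  have h59 := valid_chunk c hc _ ht _ _ _ _ h58 c1_58
  have h60 := valid_chunk c hc _ ht _ _ _ _ h59 c1_59
  exact h60 _ (by simp)

theorem ex1 (c : ℕ → ℕ → Bool) (hc : ∀ x y, c x y = c y x) (hex : ∀ L ∈ tab1, Ex c L) :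
    ∀ L ∈ tab2, Ex c L := by
  have h : Ex c T1 := elim c hc tab1 hex T1 (wf_of_wfb _ (by decide +kernel)) 0x100020004000800000000000000000000000000000000000000000000000f0016001900190016
    (by decide +kernel) (fun c' h1 h2 => valid1 c' h1 h2)
  intro L hL
  have e : tab2 = tab1 ++ [T1] := rfl
  rw [e, List.mem_append, List.mem_singleton] at hL
  rcases hL with hL | rfl
  · exact hex L hL
  · exact h

end Pool.Agent.E8helper36.K9
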