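import Pool.Agent.E8helper36.K9.Tree10_0

set_option autoImplicit false

namespace Pool.Agent.E8helper36.K9

theorem valid10 (c : ℕ → ℕ → Bool) (hc : ∀ x y, c x y = c y x) (hex : ∀ L ∈ tab10, Ex c L) :
    Valid c 0x300030003001c001c00000000000000000000000000000000000000000000000c0014001800010002 := by
  have ht : TabOK c (tabOf ([(0, 0, 1024)] :: tab10)) :=
    tabOK_of c tab10 (by decide +kernel) hex
  have h0 : ∀ C ∈ ([] : List ℕ), Valid c C := by simp
  have h1 := valid_chunk c hc _ ht _ _ _ _ h0 c10_0
  exact h1 _ (by simp)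

theorem ex10 (c : ℕ → ℕ → Bool) (hc : ∀ x y, c x y = c y x) (hex : ∀ L ∈ tab10, Ex c L) :
    ∀ L ∈ tab11, Ex c L := by
  have h : Ex c T10 := elim c hc tab10 hex T10 (wf_of_wfb _ (by decide +kernel)) 0x300030003001c001c00000000000000000000000000000000000000000000000c0014001800010002
    (by decide +kernel) (fun c' h1 h2 => valid10 c' h1 h2)
  intro L hL
  have e : tab11 = tab10 ++ [T10] := rfl
  rw [e, List.mem_append, List.mem_singleton] at hL
  rcases hL with hL | rfl
  · exact hex L hL
  · exact h

end Pool.Agent.E8helper36.K9
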