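import Pool.Agent.E8helper36.K9.Tree17_0

set_option autoImplicit false

namespace Pool.Agent.E8helper36.K9

theorem valid17 (c : ℕ → ℕ → Bool) (hc : ∀ x y, c x y = c y x) (hex : ∀ L ∈ tab17, Ex c L) :
    Valid c 0x0 := by
  have ht : TabOK c (tabOf ([(0, 0, 1024)] :: tab17)) :=
    tabOK_of c tab17 (by decide +kernel) hex
  have h0 : ∀ C ∈ ([] : List ℕ), Valid c C := by simp
  have h1 := valid_chunk c hc _ ht _ _ _ _ h0 c17_0
  have h2 := valid_chunk c hc _ ht _ _ _ _ h1 c17_1
  have h3 := valid_chunk c hc _ ht _ _ _ _ h2 c17_2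
  exact h3 _ (by simp)

theorem last (c : ℕ → ℕ → Bool) (hc : ∀ x y, c x y = c y x) (hex : ∀ L ∈ tab17, Ex c L) : False := by
  have h : Ex c [] := elim c hc tab17 hex [] (by intro e he; cases he) 0x0
    (by decide +kernel) (fun c' h1 h2 => valid17 c' h1 h2)
  refine h (fun n => n / 4) ⟨?_, ?_⟩ false (by intro e he; cases he)
  · intro a ha; simp only; omega
  · intro a ha b hb hab; simp only at hab; omega

end Pool.Agent.E8helper36.K9
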