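import Pool.Agent.E8helper36.K9.Tree3_0
import Pool.Agent.E8helper36.K9.Tree3_1
import Pool.Agent.E8helper36.K9.Tree3_2

set_option autoImplicit false

namespace Pool.Agent.E8helper36.K9

theorem valid3 (c : ℕ → ℕ → Bool) (hc : ∀ x y, c x y = c y x) (hex : ∀ L ∈ tab3, Ex c L) :
    Valid c 0x10001000600000000000000000000000000000000000000000000000f0017001a001c0018 := by
  have ht : TabOK c (tabOf ([(0, 0, 1024)] :: tab3)) :=
    tabOK_of c tab3 (by decide +kernel) hex
  have h0 : ∀ C ∈ ([] : List ℕ), Valid c C := by simp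
  have h1 := valid_chunk c hc _ ht _ _ _ _ h0 c3_0
  have h2 := valid_chunk c hc _ ht _ _ _ _ h1 c3_1
  have h3 := valid_chunk c hc _ ht _ _ _ _ h2 c3_2
  have h4 := valid_chunk c hc _ ht _ _ _ _ h3 c3_3
  have h5 := valid_chunk c hc _ ht _ _ _ _ h4 c3_4
  have h6 := valid_chunk c hc _ ht _ _ _ _ h5 c3_5
  have h7 := valid_chunk c hc _ ht _ _ _ _ h6 c3_6
  have h8 := valid_chunk c hc _ ht _ _ _ _ h7 c3_7
  have h9 := valid_chunk c hc _ ht _ _ _ _ h8 c3_8
  have h10 := valid_chunk c hc _ ht _ _ _ _ h9 c3_9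
  have h11 := valid_chunk c hc _ ht _ _ _ _ h10 c3_10
  have h12 := valid_chunk c hc _ ht _ _ _ _ h11 c3_11
  have h13 := valid_chunk c hc _ ht _ _ _ _ h12 c3_12
  have h14 := valid_chunk c hc _ ht _ _ _ _ h13 c3_13
  have h15 := valid_chunk c hc _ ht _ _ _ _ h14 c3_14
  have h16 := valid_chunk c hc _ ht _ _ _ _ h15 c3_15
  have h17 := valid_chunk c hc _ ht _ _ _ _ h16 c3_16
  have h18 := valid_chunk c hc _ ht _ _ _ _ h17 c3_17
  have h19 := valid_chunk c hc _ ht _ _ _ _ h18 c3_18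
  have h20 := valid_chunk c hc _ ht _ _ _ _ h19 c3_19
  have h21 := valid_chunk c hc _ ht _ _ _ _ h20 c3_20
  have h22 := valid_chunk c hc _ ht _ _ _ _ h21 c3_21
  have h23 := valid_chunk c hc _ ht _ _ _ _ h22 c3_22
  have h24 := valid_chunk c hc _ ht _ _ _ _ h23 c3_23
  have h25 := valid_chunk c hc _ ht _ _ _ _ h24 c3_24
  have h26 := valid_chunk c hc _ ht _ _ _ _ h25 c3_25
  have h27 := valid_chunk c hc _ ht _ _ _ _ h26 c3_26
  have h28 := valid_chunk c hc _ ht _ _ _ _ h27 c3_27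
  have h29 := valid_chunk c hc _ ht _ _ _ _ h28 c3_28
  have h30 := valid_chunk c hc _ ht _ _ _ _ h29 c3_29
  have h31 := valid_chunk c hc _ ht _ _ _ _ h30 c3_30
  have h32 := valid_chunk c hc _ ht _ _ _ _ h31 c3_31
  have h33 := valid_chunk c hc _ ht _ _ _ _ h32 c3_32
  exact h33 _ (by simp)

theorem ex3 (c : ℕ → ℕ → Bool) (hc : ∀ x y, c x y = c y x) (hex : ∀ L ∈ tab3, Ex c L) :
    ∀ L ∈ tab4, Ex c L := by
  have h : Ex c T3 := elim c hc tab3 hex T3 (wf_of_wfb _ (by decide +kernel)) 0x10001000600000000000000000000000000000000000000000000000f0017001a001c0018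
    (by decide +kernel) (fun c' h1 h2 => valid3 c' h1 h2)
  intro L hL
  have e : tab4 = tab3 ++ [T3] := rfl
  rw [e, List.mem_append, List.mem_singleton] at hL
  rcases hL with hL | rfl
  · exact hex L hL
  · exact h

end Pool.Agent.E8helper36.K9
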