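import Pool.Agent.E8helper36.K9.Tree6_0
import Pool.Agent.E8helper36.K9.Tree6_1

set_option autoImplicit false

namespace Pool.Agent.E8helper36.K9

theorem valid6 (c : ℕ → ℕ → Bool) (hc : ∀ x y, c x y = c y x) (hex : ∀ L ∈ tab6, Ex c L) :
    Valid c 0x100030005000e00000000000000000000000000000000000000000000000f0016001800180010 := by
  have ht : TabOK c (tabOf ([(0, 0, 1024)] :: tab6)) :=
    tabOK_of c tab6 (by decide +kernel) hex
  have h0 : ∀ C ∈ ([] : List ℕ), Valid c C := by simp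
  have h1 := valid_chunk c hc _ ht _ _ _ _ h0 c6_0
  have h2 := valid_chunk c hc _ ht _ _ _ _ h1 c6_1
  have h3 := valid_chunk c hc _ ht _ _ _ _ h2 c6_2
  have h4 := valid_chunk c hc _ ht _ _ _ _ h3 c6_3
  have h5 := valid_chunk c hc _ ht _ _ _ _ h4 c6_4
  have h6 := valid_chunk c hc _ ht _ _ _ _ h5 c6_5
  have h7 := valid_chunk c hc _ ht _ _ _ _ h6 c6_6
  have h8 := valid_chunk c hc _ ht _ _ _ _ h7 c6_7
  have h9 := valid_chunk c hc _ ht _ _ _ _ h8 c6_8
  have h10 := valid_chunk c hc _ ht _ _ _ _ h9 c6_9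
  have h11 := valid_chunk c hc _ ht _ _ _ _ h10 c6_10
  have h12 := valid_chunk c hc _ ht _ _ _ _ h11 c6_11
  have h13 := valid_chunk c hc _ ht _ _ _ _ h12 c6_12
  have h14 := valid_chunk c hc _ ht _ _ _ _ h13 c6_13
  have h15 := valid_chunk c hc _ ht _ _ _ _ h14 c6_14
  have h16 := valid_chunk c hc _ ht _ _ _ _ h15 c6_15
  have h17 := valid_chunk c hc _ ht _ _ _ _ h16 c6_16
  have h18 := valid_chunk c hc _ ht _ _ _ _ h17 c6_17
  have h19 := valid_chunk c hc _ ht _ _ _ _ h18 c6_18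
  have h20 := valid_chunk c hc _ ht _ _ _ _ h19 c6_19
  have h21 := valid_chunk c hc _ ht _ _ _ _ h20 c6_20
  have h22 := valid_chunk c hc _ ht _ _ _ _ h21 c6_21
  have h23 := valid_chunk c hc _ ht _ _ _ _ h22 c6_22
  have h24 := valid_chunk c hc _ ht _ _ _ _ h23 c6_23
  have h25 := valid_chunk c hc _ ht _ _ _ _ h24 c6_24
  have h26 := valid_chunk c hc _ ht _ _ _ _ h25 c6_25
  have h27 := valid_chunk c hc _ ht _ _ _ _ h26 c6_26
  have h28 := valid_chunk c hc _ ht _ _ _ _ h27 c6_27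
  have h29 := valid_chunk c hc _ ht _ _ _ _ h28 c6_28
  exact h29 _ (by simp)

theorem ex6 (c : ℕ → ℕ → Bool) (hc : ∀ x y, c x y = c y x) (hex : ∀ L ∈ tab6, Ex c L) :
    ∀ L ∈ tab7, Ex c L := by
  have h : Ex c T6 := elim c hc tab6 hex T6 (wf_of_wfb _ (by decide +kernel)) 0x100030005000e00000000000000000000000000000000000000000000000f0016001800180010
    (by decide +kernel) (fun c' h1 h2 => valid6 c' h1 h2)
  intro L hL
  have e : tab7 = tab6 ++ [T6] := rfl
  rw [e, List.mem_append, List.mem_singleton] at hL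
  rcases hL with hL | rfl
  · exact hex L hL
  · exact h

end Pool.Agent.E8helper36.K9
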