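import Pool.Agent.E8helper36.K9.Tree7_0

set_option autoImplicit false

namespace Pool.Agent.E8helper36.K9

theorem valid7 (c : ℕ → ℕ → Bool) (hc : ∀ x y, c x y = c y x) (hex : ∀ L ∈ tab7, Ex c L) :
    Valid c 0x1000100020004001800000000000000000000000000000000000000000000000e0016001900190006 := by
  have ht : TabOK c (tabOf ([(0, 0, 1024)] :: tab7)) :=
    tabOK_of c tab7 (by decide +kernel) hex
  have h0 : ∀ C ∈ ([] : List ℕ), Valid c C := by simp
  have h1 := valid_chunk c hc _ ht _ _ _ _ h0 c7_0
  have h2 := valid_chunk c hc _ ht _ _ _ _ h1 c7_1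
  exact h2 _ (by simp)

theorem ex7 (c : ℕ → ℕ → Bool) (hc : ∀ x y, c x y = c y x) (hex : ∀ L ∈ tab7, Ex c L) :
    ∀ L ∈ tab8, Ex c L := by
  have h : Ex c T7 := elim c hc tab7 hex T7 (wf_of_wfb _ (by decide +kernel)) 0x1000100020004001800000000000000000000000000000000000000000000000e0016001900190006
    (by decide +kernel) (fun c' h1 h2 => valid7 c' h1 h2)
  intro L hL
  have e : tab8 = tab7 ++ [T7] := rfl
  rw [e, List.mem_append, List.mem_singleton] at hL
  rcases hL with hL | rfl
  · exact hex L hL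
  · exact h

end Pool.Agent.E8helper36.K9
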