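import Pool.Agent.E8helper36.K9.Step0
import Pool.Agent.E8helper36.K9.Step1
import Pool.Agent.E8helper36.K9.Step2
import Pool.Agent.E8helper36.K9.Step3
import Pool.Agent.E8helper36.K9.Step4
import Pool.Agent.E8helper36.K9.Step5
import Pool.Agent.E8helper36.K9.Step6
import Pool.Agent.E8helper36.K9.Step7
import Pool.Agent.E8helper36.K9.Step8
import Pool.Agent.E8helper36.K9.Step9
import Pool.Agent.E8helper36.K9.Step10
import Pool.Agent.E8helper36.K9.Step11
import Pool.Agent.E8helper36.K9.Step12
import Pool.Agent.E8helper36.K9.Step13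
import Pool.Agent.E8helper36.K9.Step14
import Pool.Agent.E8helper36.K9.Step15
import Pool.Agent.E8helper36.K9.Step16
import Pool.Agent.E8helper36.K9.Step17

set_option autoImplicit false

namespace Pool.Agent.E8helper36.K9

/-- No two-colouring of the edges of the complete graph on `0, …, 8` avoids all the Kuratowski
patterns in both colours. -/
theorem nine (c : ℕ → ℕ → Bool) (hc : ∀ x y, c x y = c y x) (h : ∀ L ∈ kurTab, Ex c L) : False := by
  have h0 : ∀ L ∈ tab0, Ex c L := h
  have h1 := ex0 c hc h0
  have h2 := ex1 c hc h1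
  have h3 := ex2 c hc h2
  have h4 := ex3 c hc h3
  have h5 := ex4 c hc h4
  have h6 := ex5 c hc h5
  have h7 := ex6 c hc h6
  have h8 := ex7 c hc h7
  have h9 := ex8 c hc h8
  have h10 := ex9 c hc h9
  have h11 := ex10 c hc h10
  have h12 := ex11 c hc h11
  have h13 := ex12 c hc h12
  have h14 := ex13 c hc h13
  have h15 := ex14 c hc h14
  have h16 := ex15 c hc h15
  have h17 := ex16 c hc h16
  exact last c hc h17

end Pool.Agent.E8helper36.K9
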