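import Pool.Agent.E8helper36.K9.Topo
import Pool.Agent.E8helper36.K9.Nine

set_option autoImplicit false

/-! The complete graph on nine vertices is not the union of two plane graphs. -/

namespace Pool.Agent.E8helper36.K9

open Set

theorem kur_wf : kurTab.all (fun L => wfb L && L.all (fun e => decide (e.1 ≠ e.2.1))) = true := by
  decide +kernel

/-- `K₉` is not biplanar. -/
theorem two_planes (col : Fin 9 → Fin 9 → Bool) (hsym : ∀ u v, col u v = col v u)
    (h : ∀ d : Bool, ∃ G : SimpleGraph (Fin 9), Plane G ∧ ∀ u v, u ≠ v → col u v = d → G.Adj u v) :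
    False := by
  let g : ℕ → Fin 9 := fun x => if hx : x < 9 then ⟨x, hx⟩ else 0
  refine nine (fun x y => col (g x) (g y)) (fun x y => hsym _ _) ?_
  intro L hL ρ hρ s hm
  obtain ⟨G, hG, hadj⟩ := h (!s)
  have hwf := List.all_eq_true.mp kur_wf L hL
  rw [Bool.and_eq_true] at hwf
  have hinj : ∀ a < 9, ∀ b < 9, g (ρ (4 * a)) = g (ρ (4 * b)) → a = b := by
    intro a ha b hb hab
    have h1 := hρ.1 a ha
    have h2 := hρ.1 b hb
    simp only [g, dif_pos h1, dif_pos h2, Fin.mk.injEq] at hab
    exact hρ.2 a ha b hb hab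
  refine no_kur hG L hL (fun a => g (ρ (4 * a))) hinj ?_
  intro e he
  obtain ⟨⟨a, ha, hea⟩, ⟨b, hb, heb⟩, -⟩ := wf_of_wfb L hwf.1 e he
  have hne : e.1 ≠ e.2.1 := by
    have := List.all_eq_true.mp hwf.2 e he
    simpa using this
  have h0 := kur_zero L hL e he
  have hme := hm e he
  rw [h0, hea, heb] at hme
  have e1 : 4 * a / 4 = a := by omega
  have e2 : 4 * b / 4 = b := by omega
  show G.Adj (g (ρ (4 * (e.1 / 4)))) (g (ρ (4 * (e.2.1 / 4))))
  rw [hea, heb, e1, e2]
  apply hadj
  · intro hab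
    have := hinj a ha b hb hab
    apply hne
    rw [hea, heb, this]
  · simpa using hme

end Pool.Agent.E8helper36.K9
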