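import Pool.Agent.E8helper36.K9.Elim

set_option autoImplicit false

namespace Pool.Agent.E8helper36.K9

/-! The Kuratowski patterns (subdivisions of `K₃,₃` and `K₅` on at most nine vertices) and the
coloured patterns on five vertices which are eliminated one after the other. -/

/-- paths of a subdivision of K₃,₃ -/
def P0 : List (List Nat) := [[0, 6, 3], [0, 4], [0, 5], [1, 3], [1, 4], [1, 5], [2, 3], [2, 4], [2, 5]]
/-- its edges -/
def K0 : List (Nat × Nat × Nat) := [(0, 24, 0), (24, 12, 0), (0, 16, 0), (0, 20, 0), (4, 12, 0), (4, 16, 0), (4, 20, 0), (8, 12, 0), (8, 16, 0), (8, 20, 0)]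
/-- paths of a subdivision of K₃,₃ -/
def P1 : List (List Nat) := [[0, 6, 3], [0, 4], [0, 5], [1, 3], [1, 7, 4], [1, 5], [2, 3], [2, 4], [2, 5]]
/-- its edges -/
def K1 : List (Nat × Nat × Nat) := [(0, 24, 0), (24, 12, 0), (0, 16, 0), (0, 20, 0), (4, 12, 0), (4, 28, 0), (28, 16, 0), (4, 20, 0), (8, 12, 0), (8, 16, 0), (8, 20, 0)]
/-- paths of a subdivision of K₃,₃ -/
def P2 : List (List Nat) := [[0, 3], [0, 4], [0, 5], [1, 3], [1, 4], [1, 5], [2, 3], [2, 4], [2, 5]]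
/-- its edges -/
def K2 : List (Nat × Nat × Nat) := [(0, 12, 0), (0, 16, 0), (0, 20, 0), (4, 12, 0), (4, 16, 0), (4, 20, 0), (8, 12, 0), (8, 16, 0), (8, 20, 0)]
/-- paths of a subdivision of K₃,₃ -/
def P3 : List (List Nat) := [[0, 6, 3], [0, 7, 4], [0, 5], [1, 3], [1, 4], [1, 5], [2, 3], [2, 4], [2, 5]]
/-- its edges -/
def K3 : List (Nat × Nat × Nat) := [(0, 24, 0), (24, 12, 0), (0, 28, 0), (28, 16, 0), (0, 20, 0), (4, 12, 0), (4, 16, 0), (4, 20, 0), (8, 12, 0), (8, 16, 0), (8, 20, 0)]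
/-- paths of a subdivision of K₃,₃ -/
def P4 : List (List Nat) := [[0, 6, 3], [0, 7, 4], [0, 5], [1, 3], [1, 4], [1, 8, 5], [2, 3], [2, 4], [2, 5]]
/-- its edges -/
def K4 : List (Nat × Nat × Nat) := [(0, 24, 0), (24, 12, 0), (0, 28, 0), (28, 16, 0), (0, 20, 0), (4, 12, 0), (4, 16, 0), (4, 32, 0), (32, 20, 0), (8, 12, 0), (8, 16, 0), (8, 20, 0)]
/-- paths of a subdivision of K₃,₃ -/
def P5 : List (List Nat) := [[0, 6, 7, 3], [0, 4], [0, 5], [1, 3], [1, 4], [1, 5], [2, 3], [2, 4], [2, 5]]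
/-- its edges -/
def K5 : List (Nat × Nat × Nat) := [(0, 24, 0), (24, 28, 0), (28, 12, 0), (0, 16, 0), (0, 20, 0), (4, 12, 0), (4, 16, 0), (4, 20, 0), (8, 12, 0), (8, 16, 0), (8, 20, 0)]
/-- paths of a subdivision of K₃,₃ -/
def P6 : List (List Nat) := [[0, 6, 7, 3], [0, 4], [0, 5], [1, 3], [1, 8, 4], [1, 5], [2, 3], [2, 4], [2, 5]]
/-- its edges -/
def K6 : List (Nat × Nat × Nat) := [(0, 24, 0), (24, 28, 0), (28, 12, 0), (0, 16, 0), (0, 20, 0), (4, 12, 0), (4, 32, 0), (32, 16, 0), (4, 20, 0), (8, 12, 0), (8, 16, 0), (8, 20, 0)]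
/-- paths of a subdivision of K₅ -/
def P7 : List (List Nat) := [[0, 5, 1], [0, 2], [0, 3], [0, 4], [1, 2], [1, 3], [1, 4], [2, 6, 3], [2, 4], [3, 4]]
/-- its edges -/
def K7 : List (Nat × Nat × Nat) := [(0, 20, 0), (20, 4, 0), (0, 8, 0), (0, 12, 0), (0, 16, 0), (4, 8, 0), (4, 12, 0), (4, 16, 0), (8, 24, 0), (24, 12, 0), (8, 16, 0), (12, 16, 0)]
/-- paths of a subdivision of K₃,₃ -/
def P8 : List (List Nat) := [[0, 6, 3], [0, 7, 4], [0, 5], [1, 8, 3], [1, 4], [1, 5], [2, 3], [2, 4], [2, 5]]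
/-- its edges -/
def K8 : List (Nat × Nat × Nat) := [(0, 24, 0), (24, 12, 0), (0, 28, 0), (28, 16, 0), (0, 20, 0), (4, 32, 0), (32, 12, 0), (4, 16, 0), (4, 20, 0), (8, 12, 0), (8, 16, 0), (8, 20, 0)]
/-- paths of a subdivision of K₃,₃ -/
def P9 : List (List Nat) := [[0, 6, 7, 3], [0, 8, 4], [0, 5], [1, 3], [1, 4], [1, 5], [2, 3], [2, 4], [2, 5]]
/-- its edges -/
def K9 : List (Nat × Nat × Nat) := [(0, 24, 0), (24, 28, 0), (28, 12, 0), (0, 32, 0), (32, 16, 0), (0, 20, 0), (4, 12, 0), (4, 16, 0), (4, 20, 0), (8, 12, 0), (8, 16, 0), (8, 20, 0)]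
/-- paths of a subdivision of K₃,₃ -/
def P10 : List (List Nat) := [[0, 6, 3], [0, 4], [0, 5], [1, 3], [1, 7, 4], [1, 5], [2, 3], [2, 4], [2, 8, 5]]
/-- its edges -/
def K10 : List (Nat × Nat × Nat) := [(0, 24, 0), (24, 12, 0), (0, 16, 0), (0, 20, 0), (4, 12, 0), (4, 28, 0), (28, 16, 0), (4, 20, 0), (8, 12, 0), (8, 16, 0), (8, 32, 0), (32, 20, 0)]
/-- paths of a subdivision of K₅ -/
def P11 : List (List Nat) := [[0, 5, 1], [0, 6, 2], [0, 3], [0, 4], [1, 2], [1, 3], [1, 4], [2, 3], [2, 4], [3, 7, 4]]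
/-- its edges -/
def K11 : List (Nat × Nat × Nat) := [(0, 20, 0), (20, 4, 0), (0, 24, 0), (24, 8, 0), (0, 12, 0), (0, 16, 0), (4, 8, 0), (4, 12, 0), (4, 16, 0), (8, 12, 0), (8, 16, 0), (12, 28, 0), (28, 16, 0)]
/-- paths of a subdivision of K₅ -/
def P12 : List (List Nat) := [[0, 5, 1], [0, 6, 2], [0, 3], [0, 4], [1, 2], [1, 3], [1, 4], [2, 3], [2, 4], [3, 4]]
/-- its edges -/
def K12 : List (Nat × Nat × Nat) := [(0, 20, 0), (20, 4, 0), (0, 24, 0), (24, 8, 0), (0, 12, 0), (0, 16, 0), (4, 8, 0), (4, 12, 0), (4, 16, 0), (8, 12, 0), (8, 16, 0), (12, 16, 0)]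
/-- paths of a subdivision of K₅ -/
def P13 : List (List Nat) := [[0, 5, 1], [0, 2], [0, 3], [0, 4], [1, 2], [1, 3], [1, 4], [2, 3], [2, 4], [3, 4]]
/-- its edges -/
def K13 : List (Nat × Nat × Nat) := [(0, 20, 0), (20, 4, 0), (0, 8, 0), (0, 12, 0), (0, 16, 0), (4, 8, 0), (4, 12, 0), (4, 16, 0), (8, 12, 0), (8, 16, 0), (12, 16, 0)]
/-- paths of a subdivision of K₃,₃ -/
def P14 : List (List Nat) := [[0, 6, 3], [0, 7, 4], [0, 8, 5], [1, 3], [1, 4], [1, 5], [2, 3], [2, 4], [2, 5]]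
/-- its edges -/
def K14 : List (Nat × Nat × Nat) := [(0, 24, 0), (24, 12, 0), (0, 28, 0), (28, 16, 0), (0, 32, 0), (32, 20, 0), (4, 12, 0), (4, 16, 0), (4, 20, 0), (8, 12, 0), (8, 16, 0), (8, 20, 0)]
/-- paths of a subdivision of K₅ -/
def P15 : List (List Nat) := [[0, 5, 6, 1], [0, 2], [0, 3], [0, 4], [1, 2], [1, 3], [1, 4], [2, 7, 3], [2, 4], [3, 4]]
/-- its edges -/
def K15 : List (Nat × Nat × Nat) := [(0, 20, 0), (20, 24, 0), (24, 4, 0), (0, 8, 0), (0, 12, 0), (0, 16, 0), (4, 8, 0), (4, 12, 0), (4, 16, 0), (8, 28, 0), (28, 12, 0), (8, 16, 0), (12, 16, 0)]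
/-- paths of a subdivision of K₅ -/
def P16 : List (List Nat) := [[0, 5, 1], [0, 6, 2], [0, 3], [0, 4], [1, 2], [1, 7, 3], [1, 4], [2, 3], [2, 4], [3, 4]]
/-- its edges -/
def K16 : List (Nat × Nat × Nat) := [(0, 20, 0), (20, 4, 0), (0, 24, 0), (24, 8, 0), (0, 12, 0), (0, 16, 0), (4, 8, 0), (4, 28, 0), (28, 12, 0), (4, 16, 0), (8, 12, 0), (8, 16, 0), (12, 16, 0)]
/-- paths of a subdivision of K₃,₃ -/
def P17 : List (List Nat) := [[0, 6, 7, 8, 3], [0, 4], [0, 5], [1, 3], [1, 4], [1, 5], [2, 3], [2, 4], [2, 5]]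
/-- its edges -/
def K17 : List (Nat × Nat × Nat) := [(0, 24, 0), (24, 28, 0), (28, 32, 0), (32, 12, 0), (0, 16, 0), (0, 20, 0), (4, 12, 0), (4, 16, 0), (4, 20, 0), (8, 12, 0), (8, 16, 0), (8, 20, 0)]
/-- paths of a subdivision of K₅ -/
def P18 : List (List Nat) := [[0, 5, 6, 1], [0, 2], [0, 3], [0, 4], [1, 2], [1, 3], [1, 4], [2, 3], [2, 4], [3, 4]]
/-- its edges -/
def K18 : List (Nat × Nat × Nat) := [(0, 20, 0), (20, 24, 0), (24, 4, 0), (0, 8, 0), (0, 12, 0), (0, 16, 0), (4, 8, 0), (4, 12, 0), (4, 16, 0), (8, 12, 0), (8, 16, 0), (12, 16, 0)]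
/-- paths of a subdivision of K₅ -/
def P19 : List (List Nat) := [[0, 1], [0, 2], [0, 3], [0, 4], [1, 2], [1, 3], [1, 4], [2, 3], [2, 4], [3, 4]]
/-- its edges -/
def K19 : List (Nat × Nat × Nat) := [(0, 4, 0), (0, 8, 0), (0, 12, 0), (0, 16, 0), (4, 8, 0), (4, 12, 0), (4, 16, 0), (8, 12, 0), (8, 16, 0), (12, 16, 0)]
/-- paths of a subdivision of K₅ -/
def P20 : List (List Nat) := [[0, 5, 6, 1], [0, 2], [0, 3], [0, 4], [1, 2], [1, 3], [1, 4], [2, 7, 3], [2, 8, 4], [3, 4]]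
/-- its edges -/
def K20 : List (Nat × Nat × Nat) := [(0, 20, 0), (20, 24, 0), (24, 4, 0), (0, 8, 0), (0, 12, 0), (0, 16, 0), (4, 8, 0), (4, 12, 0), (4, 16, 0), (8, 28, 0), (28, 12, 0), (8, 32, 0), (32, 16, 0), (12, 16, 0)]
/-- paths of a subdivision of K₅ -/
def P21 : List (List Nat) := [[0, 5, 6, 1], [0, 7, 2], [0, 3], [0, 4], [1, 2], [1, 3], [1, 4], [2, 3], [2, 4], [3, 4]]
/-- its edges -/
def K21 : List (Nat × Nat × Nat) := [(0, 20, 0), (20, 24, 0), (24, 4, 0), (0, 28, 0), (28, 8, 0), (0, 12, 0), (0, 16, 0), (4, 8, 0), (4, 12, 0), (4, 16, 0), (8, 12, 0), (8, 16, 0), (12, 16, 0)]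
/-- paths of a subdivision of K₅ -/
def P22 : List (List Nat) := [[0, 5, 6, 1], [0, 7, 2], [0, 3], [0, 4], [1, 2], [1, 3], [1, 4], [2, 8, 3], [2, 4], [3, 4]]
/-- its edges -/
def K22 : List (Nat × Nat × Nat) := [(0, 20, 0), (20, 24, 0), (24, 4, 0), (0, 28, 0), (28, 8, 0), (0, 12, 0), (0, 16, 0), (4, 8, 0), (4, 12, 0), (4, 16, 0), (8, 32, 0), (32, 12, 0), (8, 16, 0), (12, 16, 0)]
/-- paths of a subdivision of K₅ -/
def P23 : List (List Nat) := [[0, 5, 1], [0, 6, 2], [0, 7, 3], [0, 4], [1, 2], [1, 3], [1, 4], [2, 3], [2, 4], [3, 4]]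
/-- its edges -/
def K23 : List (Nat × Nat × Nat) := [(0, 20, 0), (20, 4, 0), (0, 24, 0), (24, 8, 0), (0, 28, 0), (28, 12, 0), (0, 16, 0), (4, 8, 0), (4, 12, 0), (4, 16, 0), (8, 12, 0), (8, 16, 0), (12, 16, 0)]
/-- paths of a subdivision of K₅ -/
def P24 : List (List Nat) := [[0, 5, 1], [0, 6, 2], [0, 3], [0, 4], [1, 2], [1, 7, 3], [1, 4], [2, 3], [2, 8, 4], [3, 4]]
/-- its edges -/
def K24 : List (Nat × Nat × Nat) := [(0, 20, 0), (20, 4, 0), (0, 24, 0), (24, 8, 0), (0, 12, 0), (0, 16, 0), (4, 8, 0), (4, 28, 0), (28, 12, 0), (4, 16, 0), (8, 12, 0), (8, 32, 0), (32, 16, 0), (12, 16, 0)]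
/-- paths of a subdivision of K₅ -/
def P25 : List (List Nat) := [[0, 5, 1], [0, 6, 2], [0, 7, 3], [0, 4], [1, 2], [1, 3], [1, 8, 4], [2, 3], [2, 4], [3, 4]]
/-- its edges -/
def K25 : List (Nat × Nat × Nat) := [(0, 20, 0), (20, 4, 0), (0, 24, 0), (24, 8, 0), (0, 28, 0), (28, 12, 0), (0, 16, 0), (4, 8, 0), (4, 12, 0), (4, 32, 0), (32, 16, 0), (8, 12, 0), (8, 16, 0), (12, 16, 0)]
/-- paths of a subdivision of K₅ -/
def P26 : List (List Nat) := [[0, 5, 6, 1], [0, 2], [0, 3], [0, 4], [1, 2], [1, 3], [1, 4], [2, 7, 8, 3], [2, 4], [3, 4]]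
/-- its edges -/
def K26 : List (Nat × Nat × Nat) := [(0, 20, 0), (20, 24, 0), (24, 4, 0), (0, 8, 0), (0, 12, 0), (0, 16, 0), (4, 8, 0), (4, 12, 0), (4, 16, 0), (8, 28, 0), (28, 32, 0), (32, 12, 0), (8, 16, 0), (12, 16, 0)]
/-- paths of a subdivision of K₅ -/
def P27 : List (List Nat) := [[0, 5, 6, 1], [0, 7, 2], [0, 3], [0, 4], [1, 2], [1, 3], [1, 4], [2, 3], [2, 4], [3, 8, 4]]
/-- its edges -/
def K27 : List (Nat × Nat × Nat) := [(0, 20, 0), (20, 24, 0), (24, 4, 0), (0, 28, 0), (28, 8, 0), (0, 12, 0), (0, 16, 0), (4, 8, 0), (4, 12, 0), (4, 16, 0), (8, 12, 0), (8, 16, 0), (12, 32, 0), (32, 16, 0)]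
/-- paths of a subdivision of K₅ -/
def P28 : List (List Nat) := [[0, 5, 1], [0, 6, 2], [0, 3], [0, 4], [1, 7, 2], [1, 3], [1, 4], [2, 3], [2, 4], [3, 4]]
/-- its edges -/
def K28 : List (Nat × Nat × Nat) := [(0, 20, 0), (20, 4, 0), (0, 24, 0), (24, 8, 0), (0, 12, 0), (0, 16, 0), (4, 28, 0), (28, 8, 0), (4, 12, 0), (4, 16, 0), (8, 12, 0), (8, 16, 0), (12, 16, 0)]
/-- paths of a subdivision of K₅ -/
def P29 : List (List Nat) := [[0, 5, 6, 7, 1], [0, 8, 2], [0, 3], [0, 4], [1, 2], [1, 3], [1, 4], [2, 3], [2, 4], [3, 4]]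
/-- its edges -/
def K29 : List (Nat × Nat × Nat) := [(0, 20, 0), (20, 24, 0), (24, 28, 0), (28, 4, 0), (0, 32, 0), (32, 8, 0), (0, 12, 0), (0, 16, 0), (4, 8, 0), (4, 12, 0), (4, 16, 0), (8, 12, 0), (8, 16, 0), (12, 16, 0)]
/-- paths of a subdivision of K₅ -/
def P30 : List (List Nat) := [[0, 5, 6, 7, 1], [0, 2], [0, 3], [0, 4], [1, 2], [1, 3], [1, 4], [2, 8, 3], [2, 4], [3, 4]]
/-- its edges -/
def K30 : List (Nat × Nat × Nat) := [(0, 20, 0), (20, 24, 0), (24, 28, 0), (28, 4, 0), (0, 8, 0), (0, 12, 0), (0, 16, 0), (4, 8, 0), (4, 12, 0), (4, 16, 0), (8, 32, 0), (32, 12, 0), (8, 16, 0), (12, 16, 0)]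
/-- paths of a subdivision of K₅ -/
def P31 : List (List Nat) := [[0, 5, 6, 7, 1], [0, 2], [0, 3], [0, 4], [1, 2], [1, 3], [1, 4], [2, 3], [2, 4], [3, 4]]
/-- its edges -/
def K31 : List (Nat × Nat × Nat) := [(0, 20, 0), (20, 24, 0), (24, 28, 0), (28, 4, 0), (0, 8, 0), (0, 12, 0), (0, 16, 0), (4, 8, 0), (4, 12, 0), (4, 16, 0), (8, 12, 0), (8, 16, 0), (12, 16, 0)]
/-- paths of a subdivision of K₅ -/
def P32 : List (List Nat) := [[0, 5, 6, 1], [0, 7, 8, 2], [0, 3], [0, 4], [1, 2], [1, 3], [1, 4], [2, 3], [2, 4], [3, 4]]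
/-- its edges -/
def K32 : List (Nat × Nat × Nat) := [(0, 20, 0), (20, 24, 0), (24, 4, 0), (0, 28, 0), (28, 32, 0), (32, 8, 0), (0, 12, 0), (0, 16, 0), (4, 8, 0), (4, 12, 0), (4, 16, 0), (8, 12, 0), (8, 16, 0), (12, 16, 0)]
/-- paths of a subdivision of K₅ -/
def P33 : List (List Nat) := [[0, 5, 6, 1], [0, 7, 2], [0, 3], [0, 4], [1, 8, 2], [1, 3], [1, 4], [2, 3], [2, 4], [3, 4]]
/-- its edges -/
def K33 : List (Nat × Nat × Nat) := [(0, 20, 0), (20, 24, 0), (24, 4, 0), (0, 28, 0), (28, 8, 0), (0, 12, 0), (0, 16, 0), (4, 32, 0), (32, 8, 0), (4, 12, 0), (4, 16, 0), (8, 12, 0), (8, 16, 0), (12, 16, 0)]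
/-- paths of a subdivision of K₅ -/
def P34 : List (List Nat) := [[0, 5, 1], [0, 6, 2], [0, 7, 3], [0, 4], [1, 8, 2], [1, 3], [1, 4], [2, 3], [2, 4], [3, 4]]
/-- its edges -/
def K34 : List (Nat × Nat × Nat) := [(0, 20, 0), (20, 4, 0), (0, 24, 0), (24, 8, 0), (0, 28, 0), (28, 12, 0), (0, 16, 0), (4, 32, 0), (32, 8, 0), (4, 12, 0), (4, 16, 0), (8, 12, 0), (8, 16, 0), (12, 16, 0)]
/-- paths of a subdivision of K₅ -/
def P35 : List (List Nat) := [[0, 5, 1], [0, 6, 2], [0, 3], [0, 4], [1, 2], [1, 7, 3], [1, 4], [2, 8, 3], [2, 4], [3, 4]]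
/-- its edges -/
def K35 : List (Nat × Nat × Nat) := [(0, 20, 0), (20, 4, 0), (0, 24, 0), (24, 8, 0), (0, 12, 0), (0, 16, 0), (4, 8, 0), (4, 28, 0), (28, 12, 0), (4, 16, 0), (8, 32, 0), (32, 12, 0), (8, 16, 0), (12, 16, 0)]
/-- paths of a subdivision of K₅ -/
def P36 : List (List Nat) := [[0, 5, 6, 7, 8, 1], [0, 2], [0, 3], [0, 4], [1, 2], [1, 3], [1, 4], [2, 3], [2, 4], [3, 4]]
/-- its edges -/
def K36 : List (Nat × Nat × Nat) := [(0, 20, 0), (20, 24, 0), (24, 28, 0), (28, 32, 0), (32, 4, 0), (0, 8, 0), (0, 12, 0), (0, 16, 0), (4, 8, 0), (4, 12, 0), (4, 16, 0), (8, 12, 0), (8, 16, 0), (12, 16, 0)]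
/-- paths of a subdivision of K₅ -/
def P37 : List (List Nat) := [[0, 5, 1], [0, 6, 2], [0, 3], [0, 4], [1, 7, 2], [1, 3], [1, 4], [2, 3], [2, 4], [3, 8, 4]]
/-- its edges -/
def K37 : List (Nat × Nat × Nat) := [(0, 20, 0), (20, 4, 0), (0, 24, 0), (24, 8, 0), (0, 12, 0), (0, 16, 0), (4, 28, 0), (28, 8, 0), (4, 12, 0), (4, 16, 0), (8, 12, 0), (8, 16, 0), (12, 32, 0), (32, 16, 0)]
/-- paths of a subdivision of K₅ -/
def P38 : List (List Nat) := [[0, 5, 6, 1], [0, 7, 2], [0, 8, 3], [0, 4], [1, 2], [1, 3], [1, 4], [2, 3], [2, 4], [3, 4]]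
/-- its edges -/
def K38 : List (Nat × Nat × Nat) := [(0, 20, 0), (20, 24, 0), (24, 4, 0), (0, 28, 0), (28, 8, 0), (0, 32, 0), (32, 12, 0), (0, 16, 0), (4, 8, 0), (4, 12, 0), (4, 16, 0), (8, 12, 0), (8, 16, 0), (12, 16, 0)]
/-- paths of a subdivision of K₅ -/
def P39 : List (List Nat) := [[0, 5, 6, 1], [0, 7, 2], [0, 3], [0, 4], [1, 2], [1, 8, 3], [1, 4], [2, 3], [2, 4], [3, 4]]
/-- its edges -/
def K39 : List (Nat × Nat × Nat) := [(0, 20, 0), (20, 24, 0), (24, 4, 0), (0, 28, 0), (28, 8, 0), (0, 12, 0), (0, 16, 0), (4, 8, 0), (4, 32, 0), (32, 12, 0), (4, 16, 0), (8, 12, 0), (8, 16, 0), (12, 16, 0)]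
/-- paths of a subdivision of K₅ -/
def P40 : List (List Nat) := [[0, 5, 1], [0, 6, 2], [0, 7, 3], [0, 8, 4], [1, 2], [1, 3], [1, 4], [2, 3], [2, 4], [3, 4]]
/-- its edges -/
def K40 : List (Nat × Nat × Nat) := [(0, 20, 0), (20, 4, 0), (0, 24, 0), (24, 8, 0), (0, 28, 0), (28, 12, 0), (0, 32, 0), (32, 16, 0), (4, 8, 0), (4, 12, 0), (4, 16, 0), (8, 12, 0), (8, 16, 0), (12, 16, 0)]
/-- a two-coloured complete graph on five vertices -/
def T0 : List (Nat × Nat × Nat) := [(0, 8, 0), (0, 12, 0), (0, 16, 0), (4, 8, 0), (4, 12, 0), (4, 16, 0), (8, 12, 0), (8, 16, 0), (12, 16, 0), (0, 4, 256)]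
/-- a two-coloured complete graph on five vertices -/
def T1 : List (Nat × Nat × Nat) := [(0, 4, 0), (0, 8, 0), (0, 16, 0), (4, 12, 0), (4, 16, 0), (8, 12, 0), (8, 16, 0), (12, 16, 0), (0, 12, 256), (4, 8, 256)]
/-- a two-coloured complete graph on five vertices -/
def T2 : List (Nat × Nat × Nat) := [(0, 12, 0), (0, 16, 0), (4, 12, 0), (4, 16, 0), (8, 12, 0), (8, 16, 0), (12, 16, 0), (0, 4, 256), (0, 8, 256), (4, 8, 256)]
/-- a two-coloured complete graph on five vertices -/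
def T3 : List (Nat × Nat × Nat) := [(0, 12, 0), (0, 16, 0), (4, 8, 0), (4, 12, 0), (4, 16, 0), (8, 12, 0), (8, 16, 0), (12, 16, 0), (0, 4, 256), (0, 8, 256)]
/-- a two-coloured complete graph on five vertices -/
def T4 : List (Nat × Nat × Nat) := [(4, 8, 0), (4, 12, 0), (4, 16, 0), (8, 12, 0), (8, 16, 0), (12, 16, 0), (0, 4, 256), (0, 8, 256), (0, 12, 256), (0, 16, 256)]
/-- a two-coloured complete graph on five vertices -/
def T5 : List (Nat × Nat × Nat) := [(0, 16, 0), (4, 8, 0), (4, 12, 0), (4, 16, 0), (8, 12, 0), (8, 16, 0), (12, 16, 0), (0, 4, 256), (0, 8, 256), (0, 12, 256)]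
/-- a two-coloured complete graph on five vertices -/
def T6 : List (Nat × Nat × Nat) := [(0, 16, 0), (4, 12, 0), (4, 16, 0), (8, 12, 0), (8, 16, 0), (12, 16, 0), (0, 4, 256), (0, 8, 256), (0, 12, 256), (4, 8, 256)]
/-- a two-coloured complete graph on five vertices -/
def T7 : List (Nat × Nat × Nat) := [(0, 4, 0), (0, 8, 0), (4, 12, 0), (4, 16, 0), (8, 12, 0), (8, 16, 0), (12, 16, 0), (0, 12, 256), (0, 16, 256), (4, 8, 256)]
/-- a two-coloured complete graph on five vertices -/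
def T8 : List (Nat × Nat × Nat) := [(0, 8, 0), (0, 16, 0), (4, 12, 0), (4, 16, 0), (8, 12, 0), (8, 16, 0), (12, 16, 0), (0, 4, 256), (0, 12, 256), (4, 8, 256)]
/-- a two-coloured complete graph on five vertices -/
def T9 : List (Nat × Nat × Nat) := [(4, 12, 0), (4, 16, 0), (8, 12, 0), (8, 16, 0), (12, 16, 0), (0, 4, 256), (0, 8, 256), (0, 12, 256), (0, 16, 256), (4, 8, 256)]
/-- a two-coloured complete graph on five vertices -/
def T10 : List (Nat × Nat × Nat) := [(0, 4, 0), (8, 12, 0), (8, 16, 0), (12, 16, 0), (0, 8, 256), (0, 12, 256), (0, 16, 256), (4, 8, 256), (4, 12, 256), (4, 16, 256)]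
/-- a two-coloured complete graph on five vertices -/
def T11 : List (Nat × Nat × Nat) := [(0, 8, 0), (4, 12, 0), (4, 16, 0), (8, 12, 0), (8, 16, 0), (12, 16, 0), (0, 4, 256), (0, 12, 256), (0, 16, 256), (4, 8, 256)]
/-- a two-coloured complete graph on five vertices -/
def T12 : List (Nat × Nat × Nat) := [(0, 4, 0), (0, 16, 0), (4, 16, 0), (8, 12, 0), (8, 16, 0), (12, 16, 0), (0, 8, 256), (0, 12, 256), (4, 8, 256), (4, 12, 256)]
/-- a two-coloured complete graph on five vertices -/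
def T13 : List (Nat × Nat × Nat) := [(0, 4, 0), (0, 12, 0), (4, 16, 0), (8, 12, 0), (8, 16, 0), (12, 16, 0), (0, 8, 256), (0, 16, 256), (4, 8, 256), (4, 12, 256)]
/-- a two-coloured complete graph on five vertices -/
def T14 : List (Nat × Nat × Nat) := [(0, 12, 0), (4, 16, 0), (8, 12, 0), (8, 16, 0), (12, 16, 0), (0, 4, 256), (0, 8, 256), (0, 16, 256), (4, 8, 256), (4, 12, 256)]
/-- a two-coloured complete graph on five vertices -/
def T15 : List (Nat × Nat × Nat) := [(0, 4, 0), (4, 16, 0), (8, 12, 0), (8, 16, 0), (12, 16, 0), (0, 8, 256), (0, 12, 256), (0, 16, 256), (4, 8, 256), (4, 12, 256)]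
/-- a two-coloured complete graph on five vertices -/
def T16 : List (Nat × Nat × Nat) := [(0, 4, 0), (0, 8, 0), (4, 12, 0), (8, 16, 0), (12, 16, 0), (0, 12, 256), (0, 16, 256), (4, 8, 256), (4, 16, 256), (8, 12, 256)]

/-- the Kuratowski patterns -/
def kurTab : List (List (Nat × Nat × Nat)) := [K0, K1, K2, K3, K4, K5, K6, K7, K8, K9, K10, K11, K12, K13, K14, K15, K16, K17, K18, K19, K20, K21, K22, K23, K24, K25, K26, K27, K28, K29, K30, K31, K32, K33, K34, K35, K36, K37, K38, K39, K40]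
/-- the table for step 0 -/
def tab0 : List (List (Nat × Nat × Nat)) := [K0, K1, K2, K3, K4, K5, K6, K7, K8, K9, K10, K11, K12, K13, K14, K15, K16, K17, K18, K19, K20, K21, K22, K23, K24, K25, K26, K27, K28, K29, K30, K31, K32, K33, K34, K35, K36, K37, K38, K39, K40]
/-- the table for step 1 -/
def tab1 : List (List (Nat × Nat × Nat)) := [K0, K1, K2, K3, K4, K5, K6, K7, K8, K9, K10, K11, K12, K13, K14, K15, K16, K17, K18, K19, K20, K21, K22, K23, K24, K25, K26, K27, K28, K29, K30, K31, K32, K33, K34, K35, K36, K37, K38, K39, K40, T0]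
/-- the table for step 2 -/
def tab2 : List (List (Nat × Nat × Nat)) := [K0, K1, K2, K3, K4, K5, K6, K7, K8, K9, K10, K11, K12, K13, K14, K15, K16, K17, K18, K19, K20, K21, K22, K23, K24, K25, K26, K27, K28, K29, K30, K31, K32, K33, K34, K35, K36, K37, K38, K39, K40, T0, T1]
/-- the table for step 3 -/
def tab3 : List (List (Nat × Nat × Nat)) := [K0, K1, K2, K3, K4, K5, K6, K7, K8, K9, K10, K11, K12, K13, K14, K15, K16, K17, K18, K19, K20, K21, K22, K23, K24, K25, K26, K27, K28, K29, K30, K31, K32, K33, K34, K35, K36, K37, K38, K39, K40, T0, T1, T2]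
/-- the table for step 4 -/
def tab4 : List (List (Nat × Nat × Nat)) := [K0, K1, K2, K3, K4, K5, K6, K7, K8, K9, K10, K11, K12, K13, K14, K15, K16, K17, K18, K19, K20, K21, K22, K23, K24, K25, K26, K27, K28, K29, K30, K31, K32, K33, K34, K35, K36, K37, K38, K39, K40, T0, T1, T2, T3]
/-- the table for step 5 -/
def tab5 : List (List (Nat × Nat × Nat)) := [K0, K1, K2, K3, K4, K5, K6, K7, K8, K9, K10, K11, K12, K13, K14, K15, K16, K17, K18, K19, K20, K21, K22, K23, K24, K25, K26, K27, K28, K29, K30, K31, K32, K33, K34, K35, K36, K37, K38, K39, K40, T0, T1, T2, T3, T4]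
/-- the table for step 6 -/
def tab6 : List (List (Nat × Nat × Nat)) := [K0, K1, K2, K3, K4, K5, K6, K7, K8, K9, K10, K11, K12, K13, K14, K15, K16, K17, K18, K19, K20, K21, K22, K23, K24, K25, K26, K27, K28, K29, K30, K31, K32, K33, K34, K35, K36, K37, K38, K39, K40, T0, T1, T2, T3, T4, T5]
/-- the table for step 7 -/
def tab7 : List (List (Nat × Nat × Nat)) := [K0, K1, K2, K3, K4, K5, K6, K7, K8, K9, K10, K11, K12, K13, K14, K15, K16, K17, K18, K19, K20, K21, K22, K23, K24, K25, K26, K27, K28, K29, K30, K31, K32, K33, K34, K35, K36, K37, K38, K39, K40, T0, T1, T2, T3, T4, T5, T6]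
/-- the table for step 8 -/
def tab8 : List (List (Nat × Nat × Nat)) := [K0, K1, K2, K3, K4, K5, K6, K7, K8, K9, K10, K11, K12, K13, K14, K15, K16, K17, K18, K19, K20, K21, K22, K23, K24, K25, K26, K27, K28, K29, K30, K31, K32, K33, K34, K35, K36, K37, K38, K39, K40, T0, T1, T2, T3, T4, T5, T6, T7]
/-- the table for step 9 -/
def tab9 : List (List (Nat × Nat × Nat)) := [K0, K1, K2, K3, K4, K5, K6, K7, K8, K9, K10, K11, K12, K13, K14, K15, K16, K17, K18, K19, K20, K21, K22, K23, K24, K25, K26, K27, K28, K29, K30, K31, K32, K33, K34, K35, K36, K37, K38, K39, K40, T0, T1, T2, T3, T4, T5, T6, T7, T8]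
/-- the table for step 10 -/
def tab10 : List (List (Nat × Nat × Nat)) := [K0, K1, K2, K3, K4, K5, K6, K7, K8, K9, K10, K11, K12, K13, K14, K15, K16, K17, K18, K19, K20, K21, K22, K23, K24, K25, K26, K27, K28, K29, K30, K31, K32, K33, K34, K35, K36, K37, K38, K39, K40, T0, T1, T2, T3, T4, T5, T6, T7, T8, T9]
/-- the table for step 11 -/
def tab11 : List (List (Nat × Nat × Nat)) := [K0, K1, K2, K3, K4, K5, K6, K7, K8, K9, K10, K11, K12, K13, K14, K15, K16, K17, K18, K19, K20, K21, K22, K23, K24, K25, K26, K27, K28, K29, K30, K31, K32, K33, K34, K35, K36, K37, K38, K39, K40, T0, T1, T2, T3, T4, T5, T6, T7, T8, T9, T10]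
/-- the table for step 12 -/
def tab12 : List (List (Nat × Nat × Nat)) := [K0, K1, K2, K3, K4, K5, K6, K7, K8, K9, K10, K11, K12, K13, K14, K15, K16, K17, K18, K19, K20, K21, K22, K23, K24, K25, K26, K27, K28, K29, K30, K31, K32, K33, K34, K35, K36, K37, K38, K39, K40, T0, T1, T2, T3, T4, T5, T6, T7, T8, T9, T10, T11]
/-- the table for step 13 -/
def tab13 : List (List (Nat × Nat × Nat)) := [K0, K1, K2, K3, K4, K5, K6, K7, K8, K9, K10, K11, K12, K13, K14, K15, K16, K17, K18, K19, K20, K21, K22, K23, K24, K25, K26, K27, K28, K29, K30, K31, K32, K33, K34, K35, K36, K37, K38, K39, K40, T0, T1, T2, T3, T4, T5, T6, T7, T8, T9, T10, T11, T12]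
/-- the table for step 14 -/
def tab14 : List (List (Nat × Nat × Nat)) := [K0, K1, K2, K3, K4, K5, K6, K7, K8, K9, K10, K11, K12, K13, K14, K15, K16, K17, K18, K19, K20, K21, K22, K23, K24, K25, K26, K27, K28, K29, K30, K31, K32, K33, K34, K35, K36, K37, K38, K39, K40, T0, T1, T2, T3, T4, T5, T6, T7, T8, T9, T10, T11, T12, T13]
/-- the table for step 15 -/
def tab15 : List (List (Nat × Nat × Nat)) := [K0, K1, K2, K3, K4, K5, K6, K7, K8, K9, K10, K11, K12, K13, K14, K15, K16, K17, K18, K19, K20, K21, K22, K23, K24, K25, K26, K27, K28, K29, K30, K31, K32, K33, K34, K35, K36, K37, K38, K39, K40, T0, T1, T2, T3, T4, T5, T6, T7, T8, T9, T10, T11, T12, T13, T14]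
/-- the table for step 16 -/
def tab16 : List (List (Nat × Nat × Nat)) := [K0, K1, K2, K3, K4, K5, K6, K7, K8, K9, K10, K11, K12, K13, K14, K15, K16, K17, K18, K19, K20, K21, K22, K23, K24, K25, K26, K27, K28, K29, K30, K31, K32, K33, K34, K35, K36, K37, K38, K39, K40, T0, T1, T2, T3, T4, T5, T6, T7, T8, T9, T10, T11, T12, T13, T14, T15]
/-- the table for step 17 -/
def tab17 : List (List (Nat × Nat × Nat)) := [K0, K1, K2, K3, K4, K5, K6, K7, K8, K9, K10, K11, K12, K13, K14, K15, K16, K17, K18, K19, K20, K21, K22, K23, K24, K25, K26, K27, K28, K29, K30, K31, K32, K33, K34, K35, K36, K37, K38, K39, K40, T0, T1, T2, T3, T4, T5, T6, T7, T8, T9, T10, T11, T12, T13, T14, T15, T16]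

end Pool.Agent.E8helper36.K9
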