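import Pool.Agent.E8helper36.K9.Tree0_0
import Pool.Agent.E8helper36.K9.Tree0_1
import Pool.Agent.E8helper36.K9.Tree0_2

set_option autoImplicit false

namespace Pool.Agent.E8helper36.K9

theorem valid0 (c : ℕ → ℕ → Bool) (hc : ∀ x y, c x y = c y x) (hex : ∀ L ∈ tab0, Ex c L) :
    Valid c 0x1000200000000000000000000000000000000000000000000000f0017001b001c001c := by
  have ht : TabOK c (tabOf ([(0, 0, 1024)] :: tab0)) :=
    tabOK_of c tab0 (by decide +kernel) hex
  have h0 : ∀ C ∈ ([] : List ℕ), Valid c C := by simp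
  have h1 := valid_chunk c hc _ ht _ _ _ _ h0 c0_0
  have h2 := valid_chunk c hc _ ht _ _ _ _ h1 c0_1
  have h3 := valid_chunk c hc _ ht _ _ _ _ h2 c0_2
  have h4 := valid_chunk c hc _ ht _ _ _ _ h3 c0_3
  have h5 := valid_chunk c hc _ ht _ _ _ _ h4 c0_4
  have h6 := valid_chunk c hc _ ht _ _ _ _ h5 c0_5
  have h7 := valid_chunk c hc _ ht _ _ _ _ h6 c0_6
  have h8 := valid_chunk c hc _ ht _ _ _ _ h7 c0_7
  have h9 := valid_chunk c hc _ ht _ _ _ _ h8 c0_8
  have h10 := valid_chunk c hc _ ht _ _ _ _ h9 c0_9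
  have h11 := valid_chunk c hc _ ht _ _ _ _ h10 c0_10
  have h12 := valid_chunk c hc _ ht _ _ _ _ h11 c0_11
  have h13 := valid_chunk c hc _ ht _ _ _ _ h12 c0_12
  have h14 := valid_chunk c hc _ ht _ _ _ _ h13 c0_13
  have h15 := valid_chunk c hc _ ht _ _ _ _ h14 c0_14
  have h16 := valid_chunk c hc _ ht _ _ _ _ h15 c0_15
  have h17 := valid_chunk c hc _ ht _ _ _ _ h16 c0_16
  have h18 := valid_chunk c hc _ ht _ _ _ _ h17 c0_17
  have h19 := valid_chunk c hc _ ht _ _ _ _ h18 c0_18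
  have h20 := valid_chunk c hc _ ht _ _ _ _ h19 c0_19
  have h21 := valid_chunk c hc _ ht _ _ _ _ h20 c0_20
  have h22 := valid_chunk c hc _ ht _ _ _ _ h21 c0_21
  have h23 := valid_chunk c hc _ ht _ _ _ _ h22 c0_22
  have h24 := valid_chunk c hc _ ht _ _ _ _ h23 c0_23
  have h25 := valid_chunk c hc _ ht _ _ _ _ h24 c0_24
  have h26 := valid_chunk c hc _ ht _ _ _ _ h25 c0_25
  have h27 := valid_chunk c hc _ ht _ _ _ _ h26 c0_26
  have h28 := valid_chunk c hc _ ht _ _ _ _ h27 c0_27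
  have h29 := valid_chunk c hc _ ht _ _ _ _ h28 c0_28
  have h30 := valid_chunk c hc _ ht _ _ _ _ h29 c0_29
  have h31 := valid_chunk c hc _ ht _ _ _ _ h30 c0_30
  have h32 := valid_chunk c hc _ ht _ _ _ _ h31 c0_31
  have h33 := valid_chunk c hc _ ht _ _ _ _ h32 c0_32
  have h34 := valid_chunk c hc _ ht _ _ _ _ h33 c0_33
  have h35 := valid_chunk c hc _ ht _ _ _ _ h34 c0_34
  have h36 := valid_chunk c hc _ ht _ _ _ _ h35 c0_35
  have h37 := valid_chunk c hc _ ht _ _ _ _ h36 c0_36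
  have h38 := valid_chunk c hc _ ht _ _ _ _ h37 c0_37
  exact h38 _ (by simp)

theorem ex0 (c : ℕ → ℕ → Bool) (hc : ∀ x y, c x y = c y x) (hex : ∀ L ∈ tab0, Ex c L) :
    ∀ L ∈ tab1, Ex c L := by
  have h : Ex c T0 := elim c hc tab0 hex T0 (wf_of_wfb _ (by decide +kernel)) 0x1000200000000000000000000000000000000000000000000000f0017001b001c001c
    (by decide +kernel) (fun c' h1 h2 => valid0 c' h1 h2)
  intro L hL
  have e : tab1 = tab0 ++ [T0] := rfl
  rw [e, List.mem_append, List.mem_singleton] at hL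
  rcases hL with hL | rfl
  · exact hex L hL
  · exact h

end Pool.Agent.E8helper36.K9
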