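import Pool.Agent.H650R3.Task571D
import Pool.Agent.E8helper36.K9.Pats

set_option autoImplicit false

/-! Plane graphs contain none of the Kuratowski patterns. -/

namespace Pool.Agent.E8helper36.K9

open Set

/-- `G` has a drawing in the plane in which vertex-disjoint edges do not meet. -/
def Plane {V : Type} (G : SimpleGraph V) : Prop :=
  ∃ (p : V → ℂ) (γ : V → V → ℝ → ℂ),
    (∀ u v, G.Adj u v → ContinuousOn (γ u v) (Icc 0 1) ∧ γ u v 0 = p u ∧ γ u v 1 = p v) ∧
    ∀ u v u' v', G.Adj u v → G.Adj u' v' → u ≠ u' → u ≠ v' → v ≠ u' → v ≠ v' →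
      Disjoint (γ u v '' Icc 0 1) (γ u' v' '' Icc 0 1)

theorem Plane.iso {V W : Type} {G : SimpleGraph V} {H : SimpleGraph W} (e : G ≃g H)
    (h : Plane H) : Plane G := by
  obtain ⟨p, γ, h1, h2⟩ := h
  refine ⟨fun v => p (e v), fun u v => γ (e u) (e v), ?_, ?_⟩
  · intro u v huv
    exact h1 _ _ (e.map_adj_iff.mpr huv)
  · intro u v u' v' huv huv' a b c d
    exact h2 _ _ _ _ (e.map_adj_iff.mpr huv) (e.map_adj_iff.mpr huv') (e.injective.ne a)
      (e.injective.ne b) (e.injective.ne c) (e.injective.ne d)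

/-- the union of the arcs of a path -/
def arcs {V : Type} (γ : V → V → ℝ → ℂ) (f : ℕ → V) (l : List ℕ) : Set ℂ :=
  {z | ∃ e ∈ l.zip l.tail, z ∈ γ (f e.1) (f e.2) '' Icc 0 1}

theorem arcs_joined {V : Type} {G : SimpleGraph V} (p : V → ℂ) (γ : V → V → ℝ → ℂ)
    (h1 : ∀ u v, G.Adj u v → ContinuousOn (γ u v) (Icc 0 1) ∧ γ u v 0 = p u ∧ γ u v 1 = p v)
    (f : ℕ → V) : ∀ (l : List ℕ) (x y : ℕ) (hx : l ≠ []), 2 ≤ l.length → l.head? = some x →
      l.getLast? = some y → (∀ e ∈ l.zip l.tail, G.Adj (f e.1) (f e.2)) →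
      JoinedIn (arcs γ f l) (p (f x)) (p (f y)) := by
  have seg : ∀ (u v : V) (huv : G.Adj u v) (S : Set ℂ) (hS : γ u v '' Icc 0 1 ⊆ S),
      JoinedIn S (p u) (p v) := by
    intro u v huv S hS
    obtain ⟨hc, h0, h1'⟩ := h1 u v huv
    have hpc : IsPathConnected (γ u v '' Icc 0 1) :=
      ((convex_Icc (0 : ℝ) 1).isPathConnected ⟨0, by simp⟩).image' hc
    have := hpc.joinedIn (γ u v 0) ⟨0, by simp, rfl⟩ (γ u v 1) ⟨1, by simp, rfl⟩
    rw [h0, h1'] at this
    exact this.mono hS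
  intro l
  induction l with
  | nil => intro x y hx; exact absurd rfl hx
  | cons a l ih =>
    intro x y _ hlen hhead hlast hadj
    cases l with
    | nil => simp at hlen
    | cons b l =>
      have hax : a = x := by simpa using hhead
      subst hax
      have hab : G.Adj (f a) (f b) := hadj (a, b) (by simp)
      have s1 : JoinedIn (arcs γ f (a :: b :: l)) (p (f a)) (p (f b)) :=
        seg _ _ hab _ (fun z hz => ⟨(a, b), by simp, hz⟩)
      cases l with
      | nil =>
        have hby : b = y := by simpa using hlast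
        subst hby
        exact s1
      | cons c l =>
        have s2 := ih b y (by simp) (by simp) (by simp) (by simpa using hlast)
          (fun e he => hadj e (by
            have : (a :: b :: c :: l).zip (a :: b :: c :: l).tail =
              (a, b) :: (b :: c :: l).zip (b :: c :: l).tail := rfl
            rw [this]; exact List.mem_cons_of_mem _ he))
        refine s1.trans (s2.mono ?_)
        rintro z ⟨e, he, hz⟩
        refine ⟨e, ?_, hz⟩
        have : (a :: b :: c :: l).zip (a :: b :: c :: l).tail =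
              (a, b) :: (b :: c :: l).zip (b :: c :: l).tail := rfl
        rw [this]; exact List.mem_cons_of_mem _ he

theorem arcs_disjoint {V : Type} {G : SimpleGraph V} (γ : V → V → ℝ → ℂ)
    (h2 : ∀ u v u' v', G.Adj u v → G.Adj u' v' → u ≠ u' → u ≠ v' → v ≠ u' → v ≠ v' →
      Disjoint (γ u v '' Icc 0 1) (γ u' v' '' Icc 0 1))
    (f : ℕ → V) (hf : ∀ a < 9, ∀ b < 9, f a = f b → a = b) (l l' : List ℕ)
    (hl : ∀ x ∈ l, x < 9) (hl' : ∀ x ∈ l', x < 9) (hd : ∀ x ∈ l, x ∉ l')
    (ha : ∀ e ∈ l.zip l.tail, G.Adj (f e.1) (f e.2))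
    (ha' : ∀ e ∈ l'.zip l'.tail, G.Adj (f e.1) (f e.2)) :
    Disjoint (arcs γ f l) (arcs γ f l') := by
  rw [Set.disjoint_left]
  rintro z ⟨e, he, hz⟩ ⟨e', he', hz'⟩
  have m1 : e.1 ∈ l := (List.of_mem_zip he).1
  have m2 : e.2 ∈ l := List.mem_of_mem_tail (List.of_mem_zip he).2
  have m1' : e'.1 ∈ l' := (List.of_mem_zip he').1
  have m2' : e'.2 ∈ l' := List.mem_of_mem_tail (List.of_mem_zip he').2
  have ne : ∀ x ∈ l, ∀ y ∈ l', f x ≠ f y := by
    intro x hx y hy h
    exact hd x hx (hf x (hl x hx) y (hl' y hy) h ▸ hy)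
  exact Set.disjoint_left.mp (h2 _ _ _ _ (ha e he) (ha' e' he') (ne _ m1 _ m1') (ne _ m1 _ m2')
    (ne _ m2 _ m1') (ne _ m2 _ m2')) hz hz'

/-- the check of one path -/
def chkPath (K : List (ℕ × ℕ × ℕ)) (l : List ℕ) (a b : ℕ) : Bool :=
  decide (2 ≤ l.length) && decide (l.head? = some a) && decide (l.getLast? = some b) &&
    l.all (fun x => decide (x < 9)) && (l.zip l.tail).all (fun e => K.contains (4 * e.1, 4 * e.2, 0))

/-- disjointness of two paths -/
def chkDisj (l l' : List ℕ) : Bool := l.all fun x => !l'.contains x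

/-- check of a subdivision of `K₃,₃` -/
def chk33 (P : List (List ℕ)) (K : List (ℕ × ℕ × ℕ)) : Bool :=
  (List.range 3).all fun a => (List.range 3).all fun b =>
    chkPath K (P.getD (3 * a + b) []) a (3 + b) &&
    (List.range 3).all fun a' => (List.range 3).all fun b' =>
      decide (a = a') || decide (b = b') ||
        chkDisj (P.getD (3 * a + b) []) (P.getD (3 * a' + b') [])

/-- position of the path from `a` to `b` -/
def ix (a b : ℕ) : ℕ := a * (9 - a) / 2 + b - a - 1

/-- check of a subdivision of `K₅` -/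
def chk5 (P : List (List ℕ)) (K : List (ℕ × ℕ × ℕ)) : Bool :=
  (List.range 5).all fun a => (List.range 5).all fun b => decide (b ≤ a) ||
    (chkPath K (P.getD (ix a b) []) a b &&
    (List.range 5).all fun a' => (List.range 5).all fun b' => decide (b' ≤ a') ||
      decide (a = a') || decide (a = b') || decide (b = a') || decide (b = b') ||
        chkDisj (P.getD (ix a b) []) (P.getD (ix a' b') []))

theorem chkPath_sound {K : List (ℕ × ℕ × ℕ)} {l : List ℕ} {a b : ℕ} (h : chkPath K l a b = true) :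
    2 ≤ l.length ∧ l.head? = some a ∧ l.getLast? = some b ∧ (∀ x ∈ l, x < 9) ∧
      ∀ e ∈ l.zip l.tail, (4 * e.1, 4 * e.2, 0) ∈ K := by
  unfold chkPath at h
  simp only [Bool.and_eq_true, decide_eq_true_eq, List.all_eq_true, List.contains_iff_mem] at h
  exact ⟨h.1.1.1.1, h.1.1.1.2, h.1.1.2, h.1.2, h.2⟩

theorem chkDisj_sound {l l' : List ℕ} (h : chkDisj l l' = true) : ∀ x ∈ l, x ∉ l' := by
  intro x hx hx'
  have := List.all_eq_true.mp h x hx
  simp [hx'] at this

theorem no33 {V : Type} {G : SimpleGraph V} (hG : Plane G) (P : List (List ℕ))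
    (K : List (ℕ × ℕ × ℕ)) (hP : chk33 P K = true) (f : ℕ → V)
    (hf : ∀ a < 9, ∀ b < 9, f a = f b → a = b)
    (hK : ∀ e ∈ K, G.Adj (f (e.1 / 4)) (f (e.2.1 / 4))) : False := by
  obtain ⟨p, γ, h1, h2⟩ := hG
  have hP' : ∀ a < 3, ∀ b < 3, chkPath K (P.getD (3 * a + b) []) a (3 + b) = true ∧
      ∀ a' < 3, ∀ b' < 3, a ≠ a' → b ≠ b' →
        chkDisj (P.getD (3 * a + b) []) (P.getD (3 * a' + b') []) = true := by
    intro a ha b hb
    have h := List.all_eq_true.mp (List.all_eq_true.mp hP a (List.mem_range.mpr ha)) b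
      (List.mem_range.mpr hb)
    rw [Bool.and_eq_true] at h
    refine ⟨h.1, ?_⟩
    intro a' ha' b' hb' n1 n2
    have h3 := List.all_eq_true.mp (List.all_eq_true.mp h.2 a' (List.mem_range.mpr ha')) b'
      (List.mem_range.mpr hb')
    simpa [n1, n2] using h3
  have hadj : ∀ l : List ℕ, (∀ e ∈ l.zip l.tail, (4 * e.1, 4 * e.2, 0) ∈ K) →
      ∀ e ∈ l.zip l.tail, G.Adj (f e.1) (f e.2) := by
    intro l hl e he
    have h := hK _ (hl e he)
    simp only at h
    rwa [Nat.mul_div_cancel_left _ (by norm_num), Nat.mul_div_cancel_left _ (by norm_num)] at h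
  refine Pool.Agent.H650R3.T571D.k33_joined (fun a => p (f a))
    (fun a b => arcs γ f (P.getD (3 * a.val + (b.val - 3)) [])) ?_ ?_
  · intro a b hab
    have ha : a.val < 3 := hab.1
    have hb : 3 ≤ b.val := hab.2
    obtain ⟨c1, c2, c3, c4, c5⟩ := chkPath_sound (hP' a.val ha (b.val - 3) (by omega)).1
    refine arcs_joined (G := G) p γ h1 f _ _ _ ?_ c1 c2 ?_ (hadj _ c5)
    · intro h0; rw [h0] at c1; simp at c1
    · rw [c3]; congr 1; omega
  · intro a b c d hab hcd hac hbd
    have ha : a.val < 3 := hab.1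
    have hb : 3 ≤ b.val := hab.2
    have hc : c.val < 3 := hcd.1
    have hd : 3 ≤ d.val := hcd.2
    have n1 : a.val ≠ c.val := fun h => hac (Fin.ext h)
    have n2 : b.val - 3 ≠ d.val - 3 := fun h => hbd (Fin.ext (by omega))
    obtain ⟨c1, c2, c3, c4, c5⟩ := chkPath_sound (hP' a.val ha (b.val - 3) (by omega)).1
    obtain ⟨d1, d2, d3, d4, d5⟩ := chkPath_sound (hP' c.val hc (d.val - 3) (by omega)).1
    exact arcs_disjoint γ h2 f hf _ _ c4 d4
      (chkDisj_sound ((hP' a.val ha (b.val - 3) (by omega)).2 c.val hc (d.val - 3) (by omega) n1 n2))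
      (hadj _ c5) (hadj _ d5)

theorem no5 {V : Type} {G : SimpleGraph V} (hG : Plane G) (P : List (List ℕ))
    (K : List (ℕ × ℕ × ℕ)) (hP : chk5 P K = true) (f : ℕ → V)
    (hf : ∀ a < 9, ∀ b < 9, f a = f b → a = b)
    (hK : ∀ e ∈ K, G.Adj (f (e.1 / 4)) (f (e.2.1 / 4))) : False := by
  obtain ⟨p, γ, h1, h2⟩ := hG
  have hP' : ∀ a < 5, ∀ b < 5, a < b → chkPath K (P.getD (ix a b) []) a b = true ∧
      ∀ a' < 5, ∀ b' < 5, a' < b' → a ≠ a' → a ≠ b' → b ≠ a' → b ≠ b' →
        chkDisj (P.getD (ix a b) []) (P.getD (ix a' b') []) = true := by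
    intro a ha b hb hab
    have h := List.all_eq_true.mp (List.all_eq_true.mp hP a (List.mem_range.mpr ha)) b
      (List.mem_range.mpr hb)
    rw [Bool.or_eq_true, Bool.and_eq_true] at h
    rcases h with h | h
    · simp at h; omega
    refine ⟨h.1, ?_⟩
    intro a' ha' b' hb' hab' n1 n2 n3 n4
    have h3 := List.all_eq_true.mp (List.all_eq_true.mp h.2 a' (List.mem_range.mpr ha')) b'
      (List.mem_range.mpr hb')
    have n5 : ¬ b' ≤ a' := by omega
    simpa [n1, n2, n3, n4, n5] using h3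
  have hadj : ∀ l : List ℕ, (∀ e ∈ l.zip l.tail, (4 * e.1, 4 * e.2, 0) ∈ K) →
      ∀ e ∈ l.zip l.tail, G.Adj (f e.1) (f e.2) := by
    intro l hl e he
    have h := hK _ (hl e he)
    simp only at h
    rwa [Nat.mul_div_cancel_left _ (by norm_num), Nat.mul_div_cancel_left _ (by norm_num)] at h
  refine Pool.Agent.Helper770.VanKampen.k5_joined (fun a => p (f a))
    (fun a b => arcs γ f (P.getD (ix a.val b.val) [])) ?_ ?_
  · intro a b hab
    obtain ⟨c1, c2, c3, c4, c5⟩ := chkPath_sound (hP' a.val a.2 b.val b.2 hab).1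
    refine arcs_joined (G := G) p γ h1 f _ _ _ ?_ c1 c2 c3 (hadj _ c5)
    intro h0; rw [h0] at c1; simp at c1
  · intro a b c d hab hcd hac had hbc hbd
    have n1 : a.val ≠ c.val := fun h => hac (Fin.ext h)
    have n2 : a.val ≠ d.val := fun h => had (Fin.ext h)
    have n3 : b.val ≠ c.val := fun h => hbc (Fin.ext h)
    have n4 : b.val ≠ d.val := fun h => hbd (Fin.ext h)
    obtain ⟨c1, c2, c3, c4, c5⟩ := chkPath_sound (hP' a.val a.2 b.val b.2 hab).1
    obtain ⟨d1, d2, d3, d4, d5⟩ := chkPath_sound (hP' c.val c.2 d.val d.2 hcd).1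
    exact arcs_disjoint γ h2 f hf _ _ c4 d4
      (chkDisj_sound ((hP' a.val a.2 b.val b.2 hab).2 c.val c.2 d.val d.2 hcd n1 n2 n3 n4))
      (hadj _ c5) (hadj _ d5)

/-- the path systems of the Kuratowski patterns -/
def kurPaths : List (List (List ℕ)) := [P0, P1, P2, P3, P4, P5, P6, P7, P8, P9, P10, P11, P12, P13,
  P14, P15, P16, P17, P18, P19, P20, P21, P22, P23, P24, P25, P26, P27, P28, P29, P30, P31, P32,
  P33, P34, P35, P36, P37, P38, P39, P40]

theorem kur_ok : (kurPaths.zip kurTab).all (fun q => (chk33 q.1 q.2 || chk5 q.1 q.2) &&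
    q.2.all (fun e => decide (e.2.2 = 0))) = true := by decide +kernel

theorem kur_snd : (kurPaths.zip kurTab).map Prod.snd = kurTab := rfl

/-- None of the Kuratowski patterns occurs in a plane graph. -/
theorem no_kur {V : Type} {G : SimpleGraph V} (hG : Plane G) (L : List (ℕ × ℕ × ℕ))
    (hL : L ∈ kurTab) (f : ℕ → V) (hf : ∀ a < 9, ∀ b < 9, f a = f b → a = b)
    (hK : ∀ e ∈ L, G.Adj (f (e.1 / 4)) (f (e.2.1 / 4))) : False := by
  rw [← kur_snd, List.mem_map] at hL
  obtain ⟨q, hq, rfl⟩ := hL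
  have h := List.all_eq_true.mp kur_ok q hq
  simp only [Bool.and_eq_true, Bool.or_eq_true] at h
  rcases h.1 with h | h
  · exact no33 hG q.1 q.2 h f hf hK
  · exact no5 hG q.1 q.2 h f hf hK

theorem kur_zero (L : List (ℕ × ℕ × ℕ)) (hL : L ∈ kurTab) : ∀ e ∈ L, e.2.2 = 0 := by
  rw [← kur_snd, List.mem_map] at hL
  obtain ⟨q, hq, rfl⟩ := hL
  have h := List.all_eq_true.mp kur_ok q hq
  simp only [Bool.and_eq_true] at h
  intro e he
  simpa using List.all_eq_true.mp h.2 e he

end Pool.Agent.E8helper36.K9
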