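import Pool.Agent.E8helper36.K9.Pats

set_option autoImplicit false

namespace Pool.Agent.E8helper36.K9

set_option maxRecDepth 100000

theorem c10_0 : eqL (run (tabOf ([(0, 0, 1024)] :: tab10)) 194
    0x7400730072008654327104371008650174327070008651074327076006200856432107416300640085107643273851024637306400851023647308510264372f63006000610085423610770854271603336100854270613338542761032e620064006000875106423706100875016423708542671032f8510436273160006400875132640338751643202e8541627303271007200865017423708650327413370007200865107423708651327403363007600720085642310741620085732410641640085102374630851023476326000610085426310773854271603306100854270613308542761032f760060006200640087510642370875143620336400875132640338751643202e61006400853246710706200875043621338751643202f85421076331600061006400875264103716200875462103718751643202e854276130326100854276031328542761032d71007300720086501732470865042731337200865043721338650743212e7300700072008651073247086514273033630064006200875432610436100875016432706000875106432707600854210763338532761042f62006000875106324706100875016324707600853210764318532761042d6000875142630336100875042631337600853210764318532761042d760064007200856324107416200857423106418510243763260006200875143620338751643202e6200610087504362133853210764318751643202f64006000620087510642370875132640336100853270614308542671032f60006200875143620338751643202e85216473032720070008651437203363007600640085743210641620085104372630851043276326000610085426310773854271603306100854270613308542761032f760062006400851034726308510437622c6400851034276328510436272d600061006400875264103718520764312f854276130326100854276031328542761032d8650743212f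
    [])
    [0x300030003001c001c00000000000000000000000000000000000000000000000c0014001800010002] = true := by decide +kernel

end Pool.Agent.E8helper36.K9
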