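import Pool.Agent.E8helper36.K9.Pats

set_option autoImplicit false

namespace Pool.Agent.E8helper36.K9

set_option maxRecDepth 100000

theorem c11_0 : eqL (run (tabOf ([(0, 0, 1024)] :: tab11)) 68
    0x62006300610064008750432163387504321630640060008751604327084008200830075143286041810076503421830765031482328100830075243180641765032481328300765043218317650328412b86008300810082007650432183076504238132752014836308100800076524381033756821430017520184362f830081008200765043218307650423813275201846332750436812018750413623261006400875034216308750436212c6400875031462328750436122d63006100640060008751604327387524316034875042361326400875043216318750426312b61006400875032461328750436212d64008750326412b8750643212a
    [])
    [0x1000100020004001a00000000000000000000000000000000000000000000000e0016001900180004] = true := by decide +kernel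

end Pool.Agent.E8helper36.K9
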