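import Pool.Agent.E8helper36.K9.Pats

set_option autoImplicit false

namespace Pool.Agent.E8helper36.K9

set_option maxRecDepth 100000

theorem c13_0 : eqL (run (tabOf ([(0, 0, 1024)] :: tab13)) 162
    0x620063006100640087506132470875061324736400600087516042370840082008100830076508132470800076538024172765134280368000765380241758600753086241757531860423481008300800076528314076860075106843270754360812357650324813583008600751068432708000754361802357543861022f7650328413182008100830076508132473765043821308300765043281367650438213281008300765042831307650483212f8300765042831327650843212d87504326136610064006000875462103758751342603687504362130640060008751604237387546031235875043621326300640061006000875263140768400820081008300765081324708000765380241727651342803680007653802417586008300751086432707651342803675438061235810083008600751086432737510286433676503248135830086007510864327375102864336765032841318600810083007520683146f7520618347083007520638147075208431633830082008100765081324737650432813675102846332751634820018400820081008300765081324708000765380241727651342803680007653802417583008600751086432706000754381602357543681022f765134280368100830086007510864327375102864336765032481358300860075108643273751028643367650328413182008100830076508132473765043821308300765043281367650438213280008300765142380357651384202f756831402016100875042631308750426313261006400875032461358750463212f6400875032641318750643212d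
    [])
    [0x100020003000c001400000000000000000000000000000000000000000000000e001500180011000a] = true := by decide +kernel

end Pool.Agent.E8helper36.K9
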