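import Pool.Agent.E8helper36.K9.Pats

set_option autoImplicit false

namespace Pool.Agent.E8helper36.K9

set_option maxRecDepth 100000

theorem c14_0 : eqL (run (tabOf ([(0, 0, 1024)] :: tab14)) 32
    0x6200630061006400875061324708750613247360008754206137187542106377610060008754162036f875412603706400875034261378750436213263006100600087541603272875416320766400875024361378750426313261006400875032461358750463212f6400875032641318750643212d
    [])
    [0x20003000d000600000000000000000000000000000000000000000000000e0015001800100008] = true := by decide +kernel

end Pool.Agent.E8helper36.K9
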