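import Pool.Agent.E8helper36.K9.Pats

set_option autoImplicit false

namespace Pool.Agent.E8helper36.K9

set_option maxRecDepth 100000

theorem c15_0 : eqL (run (tabOf ([(0, 0, 1024)] :: tab15)) 32
    0x62006300610064008750613247087506132473600087546032171875461032346100640087503426138875043621306400875034261378750436213263006100640087502436138875042631306400875024361378750426313261006400875032461358750463212f6400875032641318750643212d
    [])
    [0x30003000c000000000000000000000000000000000000000000000000000e0014001800110002] = true := by decide +kernel

end Pool.Agent.E8helper36.K9
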