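import Pool.Agent.E8helper36.K9.Pats

set_option autoImplicit false

namespace Pool.Agent.E8helper36.K9

set_option maxRecDepth 100000

theorem c16_0 : eqL (run (tabOf ([(0, 0, 1024)] :: tab16)) 32
    0x74007100730070008652704317286527413077700086527401375865247103797300700086527043175865217034397000865231740388652713043571007300720086507213475865047231397000865237410398652374103773007000865207341798652710433770008652731403586527314032
    [])
    [0x3000500000014001800000000000000000000000000000000000000000000000c0012001000090002] = true := by decide +kernel

end Pool.Agent.E8helper36.K9
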