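import Pool.Agent.E8helper36.K9.Pats

set_option autoImplicit false

namespace Pool.Agent.E8helper36.K9

set_option maxRecDepth 100000

theorem c9_0 : eqL (run (tabOf ([(0, 0, 1024)] :: tab9)) 88
    0x62006300610060008754602136d87542160371640084008200830075143286043810076503421830765031482328100830075143260841765032481328300765043218317650328412b820081008300765043218307650438212c8300765041382327650438122d81008300765042381327650438212d83007650428312b7650843212a8750413623261006400875034216308750436212c6400875031462328750436122d63006100640084008200830075143280641810076503421830765031482328100830075243186041765032481328300765043218317650328412b820081008300765043218307650438212c8300765041382327650438122d81008300765042381327650438212d83007650428312b7650843212a875042361326400875043216318750426312b61006400875032461328750436212d64008750326412b8750643212a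
    [])
    [0x100030005001e00000000000000000000000000000000000000000000000e0016001800180000] = true := by decide +kernel

end Pool.Agent.E8helper36.K9
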